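import Pool.Agent.U898.CM.Grid
import Pool.Agent.N550.KH.Null

/-!
# Approximation of collapsing maps by smooth homeomorphisms
-/

set_option autoImplicit false

open Set Filter Topology Metric Function MeasureTheory
open scoped Manifold ContDiff ENNReal NNReal

noncomputable section

namespace Pool.Agent.U898.CM.Apx

open Pool.Agent.Y522 Pool.Agent.N550.KH Pool.Agent.U898.CM.Mods

variable {m : ℕ} {M N : Type} [TopologicalSpace M] [ChartedSpace (E (m + 1)) M]
  [TopologicalSpace N] [ChartedSpace (E (m + 1)) N]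

theorem nullH_mono {A B : Set N} (h : A ⊆ B) (hB : NullH (m + 1) B) : NullH (m + 1) A :=
  fun c hc hl => measure_mono_null (preimage_mono h) (hB c hc hl)

omit [ChartedSpace (E (m + 1)) M] [ChartedSpace (E (m + 1)) N] in
theorem isClosedMap_of (m : ℕ) [ChartedSpace (E (m + 1)) N] [T2Space N] {f : M → N}
    (hc : Continuous f)
    (hp : ∀ K : Set N, IsCompact K → IsCompact (f ⁻¹' K)) : IsClosedMap f := by
  have : LocallyCompactSpace N := ChartedSpace.locallyCompactSpace (E (m + 1)) N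
  exact (isProperMap_iff_isCompact_preimage.2 ⟨hc, fun _ hK => hp _ hK⟩).isClosedMap

/-- modifications over several disjoint cells -/
theorem modify_all [T2Space M] [IsManifold (𝓡 (m + 1)) ∞ M] [T2Space N] {f : M → N} {B : Set N}
    (hf : Cls m f B) (hB : IsCompact B) (hBn : NullH (m + 1) B) {ι : Type} [Fintype ι]
    (c : ι → E (m + 1) → N) (hc1 : ∀ i, Injective (c i)) (hc2 : ∀ i z, LD (m + 1) (c i) z)
    (hc3 : ∀ i j, i ≠ j → Disjoint (range (c i)) (range (c j)))
    (hc4 : B ⊆ ⋃ i, range (c i)) :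
    ∃ g : M → N, Cls m g ∅ ∧ ∀ x, g x = f x ∨ ∃ i, f x ∈ range (c i) ∧ g x ∈ range (c i) := by
  classical
  have hopen : ∀ i, IsOpen (range (c i)) := fun i =>
    (cell_isOpenEmbedding (hc1 i) (hc2 i)).isOpen_range
  have key : ∀ T : Finset ι, ∃ g : M → N, Cls m g (B \ ⋃ i ∈ T, range (c i)) ∧
      ∀ x, g x = f x ∨ ∃ i, f x ∈ range (c i) ∧ g x ∈ range (c i) := by
    intro T
    induction T using Finset.induction_on with
    | empty =>
      refine ⟨f, ?_, fun x => Or.inl rfl⟩
      simpa using hf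
    | insert i T hiT ih =>
      obtain ⟨g, hg, hgx⟩ := ih
      have hO : IsOpen (⋃ j ∈ T, range (c j)) := isOpen_biUnion fun j _ => hopen j
      have hcl : IsClosed (B \ ⋃ j ∈ T, range (c j)) := hB.isClosed.sdiff hO
      have hcomp : IsCompact ((B \ ⋃ j ∈ T, range (c j)) ∩ range (c i)) := by
        have h1 : (B \ ⋃ j ∈ T, range (c j)) ∩ range (c i) =
            B \ ⋃ j ∈ (Finset.univ.erase i), range (c j) := by
          ext x
          constructor
          · rintro ⟨⟨hxB, -⟩, hxi⟩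
            refine ⟨hxB, fun hcon => ?_⟩
            obtain ⟨j, hj, hxj⟩ := mem_iUnion₂.1 hcon
            exact Set.disjoint_left.1 (hc3 j i (Finset.ne_of_mem_erase hj)) hxj hxi
          · rintro ⟨hxB, hx⟩
            have hxi : x ∈ range (c i) := by
              obtain ⟨j, hj⟩ := mem_iUnion.1 (hc4 hxB)
              by_cases h : j = i
              · rw [← h]; exact hj
              · exact absurd (mem_iUnion₂.2 ⟨j, Finset.mem_erase.2 ⟨h, Finset.mem_univ j⟩, hj⟩) hx
            refine ⟨⟨hxB, fun hcon => ?_⟩, hxi⟩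
            obtain ⟨j, hj, hxj⟩ := mem_iUnion₂.1 hcon
            refine Set.disjoint_left.1 (hc3 j i ?_) hxj hxi
            rintro rfl
            exact hiT hj
        rw [h1]
        exact hB.diff (isOpen_biUnion fun j _ => hopen j)
      obtain ⟨g', hg', hg'1, hg'2⟩ := hg.modify hcl (nullH_mono sdiff_subset hBn) (c i) (hc1 i)
        (hc2 i) hcomp
      refine ⟨g', ?_, fun x => ?_⟩
      · have h1 : B \ ⋃ j ∈ insert i T, range (c j) =
            (B \ ⋃ j ∈ T, range (c j)) \ range (c i) := by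
          rw [Finset.set_biUnion_insert, union_comm, sdiff_sdiff]
        rw [h1]
        exact hg'
      · by_cases h : g x ∈ range (c i)
        · right
          refine ⟨i, ?_, hg'2 x h⟩
          rcases hgx x with h1 | ⟨j, h1, h2⟩
          · rw [← h1]; exact h
          · have hji : j = i := by
              by_contra hne
              exact Set.disjoint_left.1 (hc3 j i hne) h2 h
            rw [← hji]; exact h1
        · rw [hg'1 x h]
          exact hgx x
  obtain ⟨g, hg, hgx⟩ := key Finset.univ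
  refine ⟨g, ?_, hgx⟩
  have h1 : B \ ⋃ i ∈ (Finset.univ : Finset ι), range (c i) = ∅ := by
    simp only [Finset.mem_univ, iUnion_true]
    exact sdiff_eq_empty.2 hc4
  rwa [h1] at hg

/-- **The approximation theorem.** -/
theorem approx [T2Space M] [IsManifold (𝓡 (m + 1)) ∞ M] [T2Space N] [IsManifold (𝓡 (m + 1)) ∞ N]
    {f : M → N} {B : Set N} (hf : Cls m f B) (hB : IsCompact B) (hBn : NullC (m + 1) B)
    (O : Set (M × N)) (hO : IsOpen O) (hfO : ∀ x, (x, f x) ∈ O) (W : Set N) (hW : IsOpen W)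
    (hBW : B ⊆ W) :
    ∃ g : M ≃ₜ N, ContMDiff (𝓡 (m + 1)) (𝓡 (m + 1)) ∞ g ∧ (∀ x, (x, g x) ∈ O) ∧
      ∀ x, f x ∉ W → g x = f x := by
  classical
  have hBn' : NullH (m + 1) B := Null.main (m + 1) N B hBn
  have hclm : IsClosedMap f := isClosedMap_of m hf.cont hf.proper
  -- small neighbourhoods
  have h0 : ∀ y : N, ∃ V : Set N, IsOpen V ∧ y ∈ V ∧ (∀ x y', f x ∈ V → y' ∈ V → (x, y') ∈ O) := by
    intro y
    have h1 : (f ⁻¹' {y}) ×ˢ ({y} : Set N) ⊆ O := by
      rintro ⟨x, y'⟩ ⟨hx, hy'⟩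
      have h2 : f x = y := hx
      have h3 : y' = y := hy'
      rw [h3, ← h2]
      exact hfO x
    obtain ⟨u, v, hu, hv, hsu, hyv, huv⟩ := generalized_tube_lemma
      (hf.proper _ isCompact_singleton) isCompact_singleton hO h1
    refine ⟨v ∩ (f '' uᶜ)ᶜ, hv.inter (hclm _ hu.isClosed_compl).isOpen_compl,
      ⟨hyv rfl, ?_⟩, ?_⟩
    · rintro ⟨x, hx, hxy⟩
      exact hx (hsu hxy)
    · rintro x y' ⟨-, hx⟩ ⟨hy', -⟩
      refine huv ⟨?_, hy'⟩
      by_contra hcon
      exact hx ⟨x, hcon, rfl⟩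
  choose V₀ hV1 hV2 hV3 using h0
  let V : N → Set N := fun y => if y ∈ B then V₀ y ∩ W else V₀ y ∩ Bᶜ
  have hV : ∀ y, IsOpen (V y) ∧ y ∈ V y := by
    intro y
    by_cases h : y ∈ B
    · simp only [V, h, if_true]
      exact ⟨(hV1 y).inter hW, hV2 y, hBW h⟩
    · simp only [V, h, if_false]
      exact ⟨(hV1 y).inter hB.isClosed.isOpen_compl, hV2 y, h⟩
  obtain ⟨ι, hι, c, hc1, hc2, hc3, hc4, hc5⟩ := Grid.cells_cover B hB hBn' V hV
  let κ : Type := {i : ι // (range (c i) ∩ B).Nonempty}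
  have : Fintype κ := Fintype.ofFinite κ
  obtain ⟨g, hg, hgx⟩ := modify_all hf hB hBn' (fun i : κ => c i.1) (fun i => hc1 _)
    (fun i => hc2 _) (fun i j hij => hc3 _ _ fun h => hij (Subtype.ext h)) (fun x hx => by
      obtain ⟨i, hi⟩ := mem_iUnion.1 (hc4 hx)
      exact mem_iUnion.2 ⟨⟨i, ⟨x, hi, hx⟩⟩, hi⟩)
  have hsmall : ∀ i : κ, ∃ y, range (c i.1) ⊆ V₀ y ∧ range (c i.1) ⊆ W := by
    intro i
    obtain ⟨y, hy⟩ := hc5 i.1
    obtain ⟨x, hx, hxB⟩ := i.2
    by_cases h : y ∈ B
    · simp only [V, h, if_true] at hy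
      exact ⟨y, hy.trans inter_subset_left, hy.trans inter_subset_right⟩
    · simp only [V, h, if_false] at hy
      exact absurd hxB (hy hx).2
  have hbij : Bijective g := by
    refine ⟨fun x y hxy => ?_, hg.surj⟩
    exact ((hg.good x (notMem_empty _)).2 y hxy.symm).symm
  refine ⟨(Equiv.ofBijective g hbij).toHomeomorphOfContinuousClosed hg.cont
    (isClosedMap_of m hg.cont hg.proper), fun x => (hg.good x (notMem_empty _)).1, fun x => ?_,
    fun x hx => ?_⟩
  · show (x, g x) ∈ O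
    rcases hgx x with h | ⟨i, h1, h2⟩
    · rw [h]; exact hfO x
    · obtain ⟨y, hy, -⟩ := hsmall i
      exact hV3 y x (g x) (hy h1) (hy h2)
  · show g x = f x
    rcases hgx x with h | ⟨i, h1, h2⟩
    · exact h
    · obtain ⟨y, -, hy⟩ := hsmall i
      exact absurd (hy h1) hx

end Pool.Agent.U898.CM.Apx
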