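import Pool.Agent.U898.CM.Gen
import Pool.Agent.N550.KH.End
import Pool.Agent.N550.TS.Flt
import Pool.Agent.N550.TS.Flm

/-!
# Smooth extension of an end of a smooth homeomorphism, with no condition on the rank
-/

set_option autoImplicit false

open Set Filter Topology Metric Function MeasureTheory
open scoped Manifold ContDiff ENNReal NNReal

noncomputable section

namespace Pool.Agent.U898.CM.Ends

open Pool.Agent.Y522 Pool.Agent.N550.KH Pool.Agent.N550.SH.Moeb Pool.Agent.N550.KH.End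

variable {n : ℕ}

/-- homeomorphisms which are smooth off one point can be made smooth -/
theorem flatten (G : E n ≃ₜ E n) (hG : ∀ z, z ≠ 0 → ContDiffAt ℝ ∞ G z) :
    ∃ F : E n ≃ₜ E n, ContDiff ℝ ∞ F ∧ ∃ A : ℝ, ∀ z, A < ‖z‖ → F z = G z := by
  obtain ⟨θ, hθ, hm, hp, h1, h0⟩ := Pool.Agent.N550.TS.Flt.main n (fun z => G z - G 0) univ 1
    isOpen_univ (mem_univ _) one_pos (G.continuous.sub continuous_const).continuousOn
    (sub_self _) (fun x _ hx => ⟨(hG x hx).sub contDiffAt_const,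
      sub_ne_zero.2 fun h => hx (G.injective h)⟩)
  obtain ⟨ψ, hψ⟩ := Pool.Agent.N550.TS.Flm.rad_homeo (n := n) hθ.continuous hm hp h1
  refine ⟨(G.trans (Homeomorph.subRight (G 0))).trans (ψ.trans (Homeomorph.addRight (G 0))),
    ?_, ?_⟩
  · have hF : ∀ z, ((G.trans (Homeomorph.subRight (G 0))).trans
        (ψ.trans (Homeomorph.addRight (G 0)))) z =
        Pool.Agent.N550.TS.Flm.rad θ (G z - G 0) + G 0 := fun z => by
      show ψ (G z - G 0) + G 0 = _
      rw [hψ]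
    have hF' : ⇑((G.trans (Homeomorph.subRight (G 0))).trans
        (ψ.trans (Homeomorph.addRight (G 0)))) = fun z =>
        Pool.Agent.N550.TS.Flm.rad θ (G z - G 0) + G 0 := funext hF
    rw [hF', contDiff_iff_contDiffAt]
    intro z
    refine ContDiffAt.add ?_ contDiffAt_const
    by_cases hz : z = 0
    · subst hz
      exact h0
    · exact (Pool.Agent.N550.TS.Flm.rad_smooth hθ).contDiffAt.comp z
        ((hG z hz).sub contDiffAt_const)
  · obtain ⟨A, hA⟩ : ∃ A : ℝ, ∀ z, A < ‖z‖ → 1 ≤ ‖G z - G 0‖ := by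
      have h2 : IsCompact (G ⁻¹' closedBall (G 0) 1) :=
        G.isClosedEmbedding.isCompact_preimage (isCompact_closedBall _ _)
      obtain ⟨r, hr⟩ := h2.isBounded.subset_closedBall (0 : E n)
      refine ⟨r, fun z hz => ?_⟩
      by_contra hcon
      push Not at hcon
      have h3 : z ∈ G ⁻¹' closedBall (G 0) 1 := by
        rw [mem_preimage, mem_closedBall, dist_eq_norm]
        exact hcon.le
      have h4 := hr h3
      rw [mem_closedBall_zero_iff] at h4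
      linarith
    refine ⟨A, fun z hz => ?_⟩
    show ψ (G z - G 0) + G 0 = G z
    rw [hψ, Pool.Agent.N550.TS.Flm.rad_far h1 (hA z hz), sub_add_cancel]

/-- the homeomorphism from the preimage of a ball -/
theorem ball_homeo (f : E n → E n) (hf : IsOpenEmbedding f) (δ : ℝ) (hδ : 0 < δ)
    (hδr : ball 0 δ ⊆ range f) (U : TopologicalSpace.Opens (E n))
    (hU : (U : Set (E n)) = f ⁻¹' ball 0 δ) :
    ∃ H : U ≃ₜ E n, ∀ u : U, jb δ (H u) = f u := by
  have hj : IsOpenEmbedding (jb δ : E n → E n) :=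
    IsOpenEmbedding.of_continuous_injective_isOpenMap
      (continuous_iff_continuousAt.2 fun z => (jb_LD δ hδ z).continuousAt) (jb_inj δ hδ)
      (fun s hs => isOpen_image_of_LD hs fun z _ => jb_LD δ hδ z)
  have hjr : range (jb δ : E n → E n) = ball 0 δ := by
    ext w
    constructor
    · rintro ⟨z, rfl⟩
      exact mem_ball_zero_iff.2 (jb_norm δ hδ z)
    · intro hw
      obtain ⟨z, hz⟩ := jb_surj δ hδ w (mem_ball_zero_iff.1 hw)
      exact ⟨z, hz⟩
  have hι : IsOpenEmbedding (fun u : U => f u.1) := hf.comp U.isOpen.isOpenEmbedding_subtypeVal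
  have hιr : range (fun u : U => f u.1) = range (jb δ : E n → E n) := by
    rw [hjr]
    ext w
    constructor
    · rintro ⟨u, rfl⟩
      have : u.1 ∈ (U : Set (E n)) := u.2
      rw [hU] at this
      exact this
    · intro hw
      obtain ⟨x, rfl⟩ := hδr hw
      exact ⟨⟨x, by
        show x ∈ (U : Set (E n))
        rw [hU]; exact hw⟩, rfl⟩
  refine ⟨(hι.isEmbedding.toHomeomorph.trans (Homeomorph.setCongr hιr)).trans
    hj.isEmbedding.toHomeomorph.symm, fun u => ?_⟩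
  have h1 : ∀ y : range (jb δ : E n → E n), jb δ (hj.isEmbedding.toHomeomorph.symm y) = y := by
    intro y
    have h2 := hj.isEmbedding.toHomeomorph.apply_symm_apply y
    exact congrArg Subtype.val h2
  exact h1 _

/-- **The preimage of a small ball is a cell.** -/
theorem ball_piece (f : E n → E n) (hfe : IsOpenEmbedding f) (hf0 : f 0 = 0)
    (hfsm : ∀ z, z ≠ 0 → ContDiffAt ℝ ∞ f z) :
    ∃ δ : ℝ, 0 < δ ∧ ∃ (ψ : E n → E n) (F₀ : E n ≃ₜ E n) (p₀ : E n), Injective ψ ∧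
      (∀ z, LD n ψ z) ∧ (∀ w, jb δ (F₀ w) = f (ψ w)) ∧ ψ p₀ = 0 ∧ F₀ p₀ = 0 ∧
      ∀ w, w ≠ p₀ → ContDiffAt ℝ ∞ F₀ w := by
  obtain ⟨δ, hδ, hδr⟩ : ∃ δ : ℝ, 0 < δ ∧ ball 0 δ ⊆ range f :=
    Metric.isOpen_iff.1 hfe.isOpen_range 0 ⟨0, hf0⟩
  let U : TopologicalSpace.Opens (E n) := ⟨f ⁻¹' ball 0 δ, isOpen_ball.preimage hfe.continuous⟩
  obtain ⟨H, hH⟩ := ball_homeo f hfe δ hδ hδr U rfl
  have hjs : ∀ z : E n, invFun (jb δ) (jb δ z) = z := leftInverse_invFun (jb_inj δ hδ)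
  have hHf : ∀ u : U, H u = invFun (jb δ) (f u) := fun u => by rw [← hH, hjs]
  have h0mem : (0 : E n) ∈ f ⁻¹' ball 0 δ := by
    rw [mem_preimage, hf0]; exact mem_ball_self hδ
  obtain ⟨u₀, hu₀⟩ : ∃ u₀ : U, (u₀ : E n) = 0 := ⟨⟨0, h0mem⟩, rfl⟩
  have hHu₀ : H u₀ = 0 := by
    have h1 := hjs 0
    rw [jb_zero] at h1
    rw [hHf, hu₀, hf0, h1]
  have hHsm : ∀ u : U, u ≠ u₀ → ContMDiffAt (𝓡 n) (𝓡 n) ∞ H u := by
    intro u hu
    have hu' : (u : E n) ≠ 0 := fun h => hu (Subtype.ext (by rw [h, hu₀]))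
    have h1 : ContMDiffAt (𝓡 n) (𝓡 n) ∞ (fun u : U => f u) u :=
      ContMDiffAt.comp (g := f) (f := (Subtype.val : U → E n)) u (hfsm _ hu').contMDiffAt
        (Pool.Agent.N550.SH.ld_opens U u).contMDiffAt
    have h2 : LD n (invFun (jb δ) : E n → E n) (f u) := by
      rw [← hH]
      exact LD.inverse isOpen_univ (fun x _ => jb_LD δ hδ x) (fun x _ => hjs x) (mem_univ _)
    have h3 : ContMDiffAt (𝓡 n) (𝓡 n) ∞ (fun u : U => invFun (jb δ) (f u)) u :=
      ContMDiffAt.comp (g := invFun (jb δ)) (f := fun u : U => f u) u h2.contMDiffAt h1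
    have h4 : (H : U → E n) = fun u : U => invFun (jb δ) (f u) := funext hHf
    rw [h4]
    exact h3
  have hB : Measure.hausdorffMeasure 1
      (H '' {u : U | ¬ ∀ᶠ y in 𝓝 u, ContMDiffAt (𝓡 n) (𝓡 n) ∞ H y}) = 0 := by
    have h1 : H '' {u : U | ¬ ∀ᶠ y in 𝓝 u, ContMDiffAt (𝓡 n) (𝓡 n) ∞ H y} ⊆ {(0 : E n)} := by
      rintro _ ⟨u, hu, rfl⟩
      by_contra hne
      apply hu
      have h2 : u ≠ u₀ := fun h => hne (by rw [h, hHu₀]; rfl)
      filter_upwards [isOpen_ne.mem_nhds h2] with y hy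
      exact hHsm y hy
    have : NullSingletonClass (Measure.hausdorffMeasure 1 : Measure (E n)) :=
      Measure.nullSingletonClass_hausdorff (E n) one_pos
    exact measure_mono_null h1 (measure_singleton _)
  obtain ⟨Ψ⟩ := Pool.Agent.N550.SH.open_version n U H hB
  refine ⟨δ, hδ, fun y => (Ψ.symm y : E n), Ψ.symm.toHomeomorph.trans H, Ψ u₀,
    Subtype.val_injective.comp Ψ.symm.injective, fun z => ?_, fun w => hH _, ?_, ?_, ?_⟩
  · exact LD.comp_fun (g := (Subtype.val : U → E n)) (f := Ψ.symm)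
      (Pool.Agent.N550.SH.ld_opens U (Ψ.symm z)) (Ψ.symm.isLocalDiffeomorph z)
  · show ((Ψ.symm (Ψ u₀) : U) : E n) = 0
    rw [Ψ.symm_apply_apply, hu₀]
  · show H (Ψ.symm (Ψ u₀)) = 0
    rw [Ψ.symm_apply_apply, hHu₀]
  · intro w hw
    have h1 : Ψ.symm w ≠ u₀ := fun h => hw (by rw [← h, Ψ.apply_symm_apply])
    have h2 : ContMDiffAt (𝓡 n) (𝓡 n) ∞ (fun w => H (Ψ.symm w)) w :=
      ContMDiffAt.comp (g := H) (f := Ψ.symm) w (hHsm _ h1)
        (Ψ.symm.contMDiff.contMDiffAt)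
    exact contMDiffAt_iff_contDiffAt.1 h2

theorem extend_end (e : E n → E n) (R : ℝ) (hn : 0 < n) (hc : Continuous e)
    (hs : Surjective e) (hp : ∀ K : Set (E n), IsCompact K → IsCompact (e ⁻¹' K))
    (hR : ∀ z, R < ‖z‖ → ContDiffAt ℝ ∞ e z ∧ ∀ w, e w = e z → w = z) :
    ∃ G : E n ≃ₜ E n, ContDiff ℝ ∞ G ∧ ∃ A : ℝ, ∀ z, A < ‖z‖ → G z = e z := by
  have hprop : Tendsto e (cocompact (E n)) (cocompact (E n)) := by
    rw [Filter.hasBasis_cocompact.tendsto_right_iff]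
    intro K hK
    exact mem_of_superset (hp K hK).compl_mem_cocompact fun z hz h => hz h
  have hclosed : IsClosedMap e :=
    (isProperMap_iff_isCompact_preimage.2 ⟨hc, fun _ hK => hp _ hK⟩).isClosedMap
  have hsurj : ∀ R₁ : ℝ, ∃ A : ℝ, ∀ w : E n, A < ‖w‖ → ∃ z, R₁ < ‖z‖ ∧ e z = w := by
    intro R₁
    obtain ⟨A, hA⟩ := ((isCompact_closedBall (0 : E n) R₁).image
      hc).isBounded.subset_closedBall (0 : E n)
    refine ⟨A, fun w hw => ?_⟩
    obtain ⟨z, hz⟩ := hs w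
    refine ⟨z, ?_, hz⟩
    by_contra hcon
    push Not at hcon
    have h1 := hA ⟨z, mem_closedBall_zero_iff.2 hcon, hz⟩
    rw [mem_closedBall_zero_iff] at h1
    linarith
  have hopen : ∀ y : E n, R < ‖y‖ → ∀ s ∈ 𝓝 y, e '' s ∈ 𝓝 (e y) := by
    intro y hy s hsy
    obtain ⟨U, hU, hUo, hyU⟩ := _root_.mem_nhds_iff.1 (inter_mem hsy
      ((isOpen_lt continuous_const continuous_norm).mem_nhds hy))
    have h1 : e '' U = (e '' Uᶜ)ᶜ := by
      ext w
      constructor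
      · rintro ⟨z, hz, rfl⟩ ⟨z', hz', h⟩
        have := (hR z (hU hz).2).2 z' h
        rw [this] at hz'
        exact hz' hz
      · intro hw
        obtain ⟨z, rfl⟩ := hs w
        by_contra hcon
        refine hw ⟨z, fun hz => hcon ⟨z, hz, rfl⟩, rfl⟩
    have h2 : IsOpen (e '' U) := by
      rw [h1]
      exact (hclosed _ hUo.isClosed_compl).isOpen_compl
    exact mem_of_superset (h2.mem_nhds ⟨y, hyU, rfl⟩) (image_mono fun z hz => (hU hz).1)
  -- a large radius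
  obtain ⟨R₀, hR₀R, hR₀1, hR₀e⟩ : ∃ R₀ : ℝ, R ≤ R₀ ∧ 1 ≤ R₀ ∧ ∀ y, R₀ < ‖y‖ → 1 < ‖e y‖ := by
    have h1 : Tendsto (fun y => ‖e y‖) (Bornology.cobounded (E n)) atTop := by
      refine tendsto_norm_cobounded_atTop.comp ?_
      rw [Metric.cobounded_eq_cocompact]
      exact hprop
    have h2 : ∀ᶠ y in Bornology.cobounded (E n), 1 < ‖e y‖ := h1.eventually (eventually_gt_atTop 1)
    obtain ⟨r, -, hr⟩ := (Metric.hasBasis_cobounded_compl_closedBall (0 : E n)).eventually_iff.1 h2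
    refine ⟨max (max R 1) r, (le_max_left _ _).trans (le_max_left _ _),
      (le_max_right _ _).trans (le_max_left _ _), fun y hy => hr ?_⟩
    have : r < ‖y‖ := lt_of_le_of_lt (le_max_right _ _) hy
    simpa using this
  have hR₀ : 0 < R₀ := by linarith
  set ρ := R₀⁻¹ with hρd
  have hρ : 0 < ρ := inv_pos.2 hR₀
  have hbig : ∀ z : E n, z ≠ 0 → ‖z‖ < ρ → R₀ < ‖Iv z‖ := by
    intro z hz h
    have h0 := norm_pos_iff.2 hz
    rw [norm_Iv, ← inv_inv R₀]
    exact inv_strictAnti₀ h0 h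
  set e' : E n → E n := fun z => if z = 0 then 0 else Iv (e (Iv z)) with he'
  have he'0 : e' 0 = 0 := by simp [he']
  have he'z : ∀ z, z ≠ 0 → e' z = Iv (e (Iv z)) := fun z hz => by simp [he', hz]
  have he'ev : ∀ z, z ≠ 0 → e' =ᶠ[𝓝 z] fun z => Iv (e (Iv z)) := by
    intro z hz
    filter_upwards [isOpen_ne.mem_nhds hz] with y hy
    exact he'z y hy
  have hene : ∀ z : E n, z ≠ 0 → ‖z‖ < ρ → e (Iv z) ≠ 0 := by
    intro z hz h h0
    have := hR₀e _ (hbig z hz h)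
    rw [h0, norm_zero] at this
    linarith
  have he'ne : ∀ z : E n, z ≠ 0 → ‖z‖ < ρ → e' z ≠ 0 := fun z hz h => by
    rw [he'z z hz]; exact Iv_ne (hene z hz h)
  have he'inj : InjOn e' (ball 0 ρ) := by
    intro x hx y hy hxy
    rw [mem_ball_zero_iff] at hx hy
    by_cases hx0 : x = 0
    · by_cases hy0 : y = 0
      · rw [hx0, hy0]
      · rw [hx0, he'0] at hxy
        exact absurd hxy.symm (he'ne y hy0 hy)
    · by_cases hy0 : y = 0
      · rw [hy0, he'0] at hxy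
        exact absurd hxy (he'ne x hx0 hx)
      · rw [he'z x hx0, he'z y hy0] at hxy
        have h1 : e (Iv x) = e (Iv y) := by
          rw [← Iv_Iv' (e (Iv x)), hxy, Iv_Iv']
        have h2 : Iv x = Iv y := (hR _ (lt_of_le_of_lt hR₀R (hbig y hy0 hy))).2 _ h1
        rw [← Iv_Iv' x, h2, Iv_Iv']
  have he'sm : ∀ z : E n, z ≠ 0 → ‖z‖ < ρ → ContDiffAt ℝ ∞ e' z := by
    intro z hz h
    have h1 : ContDiffAt ℝ ∞ (fun z => Iv (e (Iv z))) z := by
      have h2 : ContDiffAt ℝ ∞ (Iv : E n → E n) z := contDiffAt_Iv hz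
      have h3 : ContDiffAt ℝ ∞ e (Iv z) := (hR _ (lt_of_le_of_lt hR₀R (hbig z hz h))).1
      have h4 : ContDiffAt ℝ ∞ (Iv : E n → E n) (e (Iv z)) := contDiffAt_Iv (hene z hz h)
      exact ContDiffAt.comp (g := (Iv : E n → E n)) (f := fun z => e (Iv z)) z h4
        (ContDiffAt.comp (g := e) (f := (Iv : E n → E n)) z h3 h2)
    exact h1.congr_of_eventuallyEq (he'ev z hz)
  have he'c0 : ContinuousAt e' 0 := by
    rw [continuousAt_iff_punctured_nhds, he'0]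
    have h1 : Tendsto (fun z => Iv (e (Iv z))) (𝓝[≠] (0 : E n)) (𝓝 0) := by
      refine tendsto_Iv_cobounded.comp (Tendsto.comp ?_ tendsto_Iv_zero)
      rw [Metric.cobounded_eq_cocompact]
      exact hprop
    refine h1.congr' ?_
    filter_upwards [self_mem_nhdsWithin] with z hz
    exact (he'z z hz).symm
  have he'op : ∀ z : E n, z ≠ 0 → ‖z‖ < ρ → ∀ s ∈ 𝓝 z, e' '' s ∈ 𝓝 (e' z) := by
    intro z hz h s hsz
    have h1 : (Iv : E n → E n) '' (s ∩ {y | y ≠ 0}) ∈ 𝓝 (Iv z) :=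
      (LD_Iv hz).image_mem_nhds (inter_mem hsz (isOpen_ne.mem_nhds hz))
    have h2 := hopen (Iv z) (lt_of_le_of_lt hR₀R (hbig z hz h)) _ h1
    have h3 := (LD_Iv (hene z hz h)).image_mem_nhds h2
    rw [he'z z hz]
    refine mem_of_superset h3 ?_
    rintro _ ⟨_, ⟨_, ⟨y, ⟨hy1, hy2⟩, rfl⟩, rfl⟩, rfl⟩
    exact ⟨y, hy1, he'z y hy2⟩
  have he'open : ∀ r : ℝ, 0 < r → ∃ δ : ℝ, 0 < δ ∧ ball 0 δ ⊆ e' '' ball 0 r := by
    intro r hr
    obtain ⟨A, hA⟩ := hsurj r⁻¹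
    refine ⟨(max A 1)⁻¹, inv_pos.2 (lt_of_lt_of_le one_pos (le_max_right _ _)), fun w hw => ?_⟩
    rw [mem_ball_zero_iff] at hw
    by_cases hw0 : w = 0
    · exact ⟨0, mem_ball_self hr, by rw [he'0, hw0]⟩
    · have h0 := norm_pos_iff.2 hw0
      have h1 : A < ‖Iv w‖ := by
        rw [norm_Iv]
        refine lt_of_le_of_lt (le_max_left A 1) ?_
        rw [← inv_inv (max A 1)]
        exact inv_strictAnti₀ h0 hw
      obtain ⟨y, hy, hyw⟩ := hA _ h1
      have hy0 : y ≠ 0 := by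
        intro h
        rw [h, norm_zero] at hy
        exact absurd hy (not_lt.2 (inv_nonneg.2 hr.le))
      refine ⟨Iv y, ?_, ?_⟩
      · rw [mem_ball_zero_iff, norm_Iv]
        have := inv_strictAnti₀ (inv_pos.2 hr) hy
        rwa [inv_inv] at this
      · rw [he'z _ (Iv_ne hy0), Iv_Iv', hyw, Iv_Iv']
  -- the open embedding
  set f : E n → E n := fun z => e' (jb ρ z) with hf
  have hf0 : f 0 = 0 := by show e' (jb ρ 0) = 0; rw [jb_zero, he'0]
  have hjne : ∀ z : E n, z ≠ 0 → jb ρ z ≠ 0 := fun z hz h => hz (jb_inj ρ hρ (by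
    rw [h, jb_zero]))
  have hfsm : ∀ z, z ≠ 0 → ContDiffAt ℝ ∞ f z := fun z hz =>
    ContDiffAt.comp z (he'sm _ (hjne z hz) (jb_norm ρ hρ z)) (jb_LD ρ hρ z).contDiffAt
  have hfinj : Injective f := fun x y h => jb_inj ρ hρ
    (he'inj (mem_ball_zero_iff.2 (jb_norm ρ hρ x)) (mem_ball_zero_iff.2 (jb_norm ρ hρ y)) h)
  have hfc : Continuous f := by
    rw [continuous_iff_continuousAt]
    intro z
    by_cases hz : z = 0
    · subst hz
      refine ContinuousAt.comp (g := e') (f := jb ρ) ?_ (jb_LD ρ hρ 0).continuousAt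
      rw [jb_zero]
      exact he'c0
    · exact (hfsm z hz).continuousAt
  have hfo : IsOpenMap f := by
    rw [isOpenMap_iff_nhds_le]
    intro z s hs
    rw [mem_map] at hs
    have h1 : jb ρ '' (f ⁻¹' s) ∈ 𝓝 (jb ρ z) := (jb_LD ρ hρ z).image_mem_nhds hs
    by_cases hz : z = 0
    · subst hz
      rw [jb_zero] at h1
      obtain ⟨r, hr, hrs⟩ := Metric.mem_nhds_iff.1 h1
      obtain ⟨δ, hδ, hδs⟩ := he'open r hr
      rw [hf0]
      refine mem_of_superset (ball_mem_nhds 0 hδ) ?_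
      intro w hw
      obtain ⟨y, hy, rfl⟩ := hδs hw
      obtain ⟨x, hx, hxy⟩ := hrs hy
      have : f x = e' y := by rw [← hxy]
      rw [← this]
      exact hx
    · have h2 := he'op _ (hjne z hz) (jb_norm ρ hρ z) _ h1
      refine mem_of_superset h2 ?_
      rintro _ ⟨_, ⟨x, hx, rfl⟩, rfl⟩
      exact hx
  have hfe : IsOpenEmbedding f := IsOpenEmbedding.of_continuous_injective_isOpenMap hfc hfinj hfo
  obtain ⟨δ, hδ, ψ, F₀, p₀, hψi, hψd, hjF, hψp, hF₀p, hF₀s⟩ := ball_piece f hfe hf0 hfsm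
  -- extension to the whole space
  have hExt : StExt := Pool.Agent.Y784.SH.ext Pool.Agent.Y248.SH.germ
  obtain ⟨G₁, hG₁b, hG₁d, hG₁⟩ := hExt n ψ hψi hψd (‖p₀‖ + 1)
  obtain ⟨G₂, hG₂b, hG₂d, hG₂⟩ := hExt n (jb δ) (jb_inj δ hδ) (jb_LD δ hδ) 1
  obtain ⟨G₃, hG₃b, hG₃d, hG₃⟩ := hExt n (jb ρ) (jb_inj ρ hρ) (jb_LD ρ hρ) 1
  set g₁ := homeoOf G₁ hG₁b hG₁d with hg₁
  set g₂ := homeoOf G₂ hG₂b hG₂d with hg₂
  set g₃ := homeoOf G₃ hG₃b hG₃d with hg₃
  set F : E n ≃ₜ E n := g₃.symm.trans (g₁.symm.trans (F₀.trans g₂)) with hF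
  have hFa : ∀ z, F z = G₂ (F₀ (g₁.symm (g₃.symm z))) := fun z => rfl
  have hg₃0 : g₃ 0 = 0 := by
    show G₃ 0 = 0
    rw [hG₃ 0 (by simp), jb_zero]
  have hg₃s : g₃.symm 0 = 0 := by
    rw [← hg₃0, Homeomorph.symm_apply_apply, hg₃0]
  have hg₁p : g₁ p₀ = 0 := by
    show G₁ p₀ = 0
    rw [hG₁ _ (by linarith), hψp]
  have hg₁s : g₁.symm 0 = p₀ := by rw [← hg₁p, Homeomorph.symm_apply_apply]
  have hFeq : ∀ᶠ z in 𝓝 (0 : E n), F z = e' z := by
    have t3 : Tendsto g₃.symm (𝓝 0) (𝓝 0) := by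
      have := g₃.symm.continuous.tendsto 0
      rwa [hg₃s] at this
    have t1 : Tendsto g₁.symm (𝓝 0) (𝓝 p₀) := by
      have := g₁.symm.continuous.tendsto 0
      rwa [hg₁s] at this
    have t0 : Tendsto F₀ (𝓝 p₀) (𝓝 0) := by
      have := F₀.continuous.tendsto p₀
      rwa [hF₀p] at this
    have e3 : ∀ᶠ x in 𝓝 (0 : E n), ‖x‖ ≤ 1 := by
      filter_upwards [ball_mem_nhds (0 : E n) one_pos] with w hw
      exact (mem_ball_zero_iff.1 hw).le
    have e1 : ∀ᶠ w in 𝓝 p₀, ‖w‖ ≤ ‖p₀‖ + 1 := by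
      have h2 : ContinuousAt (fun w : E n => ‖w‖) p₀ := continuous_norm.continuousAt
      filter_upwards [h2.eventually (gt_mem_nhds (show ‖p₀‖ < ‖p₀‖ + 1 by linarith))] with w hw
      exact hw.le
    filter_upwards [t3.eventually e3, (t1.comp t3).eventually e1,
      (t0.comp (t1.comp t3)).eventually e3] with z h3 h1 h0
    simp only [comp_apply] at h1 h0
    rw [hFa, hG₂ _ h0, hjF, ← hG₁ _ h1]
    have h4 : G₁ (g₁.symm (g₃.symm z)) = g₃.symm z := g₁.apply_symm_apply _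
    rw [h4]
    show e' (jb ρ (g₃.symm z)) = e' z
    rw [← hG₃ _ h3]
    congr 1
    exact g₃.apply_symm_apply z
  have hF0 : F 0 = 0 := by rw [hFeq.self_of_nhds, he'0]
  have hFsm : ∀ z, z ≠ 0 → ContDiffAt ℝ ∞ F z := by
    intro z hz
    have h1 : g₁.symm (g₃.symm z) ≠ p₀ := by
      intro h
      apply hz
      have h2 : g₃.symm z = 0 := by
        rw [← g₁.apply_symm_apply (g₃.symm z), h, hg₁p]
      rw [← g₃.apply_symm_apply z, h2, hg₃0]
    have h2 : ContDiffAt ℝ ∞ (fun z => g₁.symm (g₃.symm z)) z :=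
      ContDiffAt.comp z (homeoOf_symm_LD G₁ hG₁b hG₁d _).contDiffAt
        (homeoOf_symm_LD G₃ hG₃b hG₃d z).contDiffAt
    have h3 : ContDiffAt ℝ ∞ (fun z => F₀ (g₁.symm (g₃.symm z))) z :=
      ContDiffAt.comp (g := F₀) (f := fun z => g₁.symm (g₃.symm z)) z (hF₀s _ h1) h2
    exact ContDiffAt.comp (g := G₂) (f := fun z => F₀ (g₁.symm (g₃.symm z))) z
      (hG₂d _).contDiffAt h3
  obtain ⟨G, hG, A, hGA⟩ := flatten (conjH F hF0) (fun z hz => by
    have h1 : F (Iv z) ≠ 0 := by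
      intro h
      rw [← hF0] at h
      exact Iv_ne hz (F.injective h)
    have h2 : ContDiffAt ℝ ∞ (Iv : E n → E n) z := contDiffAt_Iv hz
    have h3 : ContDiffAt ℝ ∞ F (Iv z) := hFsm _ (Iv_ne hz)
    have h4 : ContDiffAt ℝ ∞ (Iv : E n → E n) (F (Iv z)) := contDiffAt_Iv h1
    exact ContDiffAt.comp (g := (Iv : E n → E n)) (f := fun z => F (Iv z)) z h4
      (ContDiffAt.comp (g := F) (f := (Iv : E n → E n)) z h3 h2))
  have h1 : ∀ᶠ z in Bornology.cobounded (E n), F (Iv z) = e' (Iv z) :=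
    tendsto_Iv_cobounded.eventually hFeq
  obtain ⟨r, -, hr⟩ := (Metric.hasBasis_cobounded_compl_closedBall (0 : E n)).eventually_iff.1 h1
  refine ⟨G, hG, max A (max r 0), fun z hz => ?_⟩
  have hzA : A < ‖z‖ := lt_of_le_of_lt (le_max_left _ _) hz
  have h2 : r < ‖z‖ := lt_of_le_of_lt ((le_max_left _ _).trans (le_max_right _ _)) hz
  have h3 : 0 < ‖z‖ := lt_of_le_of_lt ((le_max_right _ _).trans (le_max_right _ _)) hz
  have h4 := hr (show z ∈ (closedBall (0 : E n) r)ᶜ by simpa using h2)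
  rw [hGA z hzA]
  show Iv (F (Iv z)) = e z
  rw [h4, he'z _ (Iv_ne (norm_pos_iff.1 h3)), Iv_Iv', Iv_Iv']

end Pool.Agent.U898.CM.Ends
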