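import Pool.Agent.N550.SH.Fin

/-!
# Collapsing maps onto `ℝ^n`

`H : X → ℝ^(m+1)` is a proper continuous surjection from a smooth manifold. There is a set `Z` of
exceptional values such that the fibres over the other values are single points at which `H` is
smooth. If the images of `Z` under the coordinates and under the square of the norm are null sets
and every fibre has a neighbourhood which embeds in `ℝ^(m+1)`, then the compact subsets of `X` are
contained in open cells. The proof is an adaptation of the one for homeomorphisms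
(`Pool/Agent/N550/SH/Gen.lean`).
-/

set_option autoImplicit false

open Set Filter Topology Metric Function MeasureTheory
open scoped Manifold ContDiff ENNReal NNReal

noncomputable section

namespace Pool.Agent.U898.CM

open Pool.Agent.Y522 Pool.Agent.N550.SH

/-- regular values outside a null set of exceptional values are dense -/
theorem exists_regular_val {n : ℕ} {X : Type} [TopologicalSpace X]
    [SecondCountableTopology X] [ChartedSpace (E n) X] [IsManifold (𝓡 n) ∞ X] (f : X → ℝ)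
    (G : Set X) (hG : IsOpen G) (hf : ∀ x ∈ G, ContMDiffAt (𝓡 n) 𝓘(ℝ, ℝ) ∞ f x) (W : Set ℝ)
    (hnull : volume W = 0) {a b : ℝ} (hab : a < b) :
    ∃ c : ℝ, a < c ∧ c < b ∧ c ∉ W ∧ ∀ x ∈ G, f x = c → mfderiv (𝓡 n) 𝓘(ℝ, ℝ) f x ≠ 0 := by
  have h1 := sard_open f G hG hf
  have h2 : ¬ (Ioo a b ⊆ f '' {x | x ∈ G ∧ mfderiv (𝓡 n) 𝓘(ℝ, ℝ) f x = 0} ∪ W) := by
    intro hsub
    have h3 := measure_mono_null hsub (measure_union_null h1 hnull)
    rw [Real.volume_Ioo, ENNReal.ofReal_eq_zero] at h3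
    linarith
  obtain ⟨c, hc, hc'⟩ := not_subset.1 h2
  exact ⟨c, hc.1, hc.2, fun h => hc' (Or.inr h), fun x hxG hx h0 =>
    hc' (Or.inl ⟨x, ⟨hxG, h0⟩, hx⟩)⟩

/-- the set-up: proper continuous surjections onto `ℝ^(m+1)`, with exceptional values `Z` -/
structure Col (m : ℕ) (X : Type) [TopologicalSpace X] [ChartedSpace (E (m + 1)) X]
    (H : X → E (m + 1)) (G : Set X) (Z : Set (E (m + 1))) : Prop where
  cont : Continuous H
  surj : Surjective H
  proper : ∀ K : Set (E (m + 1)), IsCompact K → IsCompact (H ⁻¹' K)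
  isOpen : IsOpen G
  smooth : ∀ x ∈ G, ContMDiffAt (𝓡 (m + 1)) (𝓡 (m + 1)) ∞ H x
  good : ∀ x, H x ∉ Z → x ∈ G ∧ ∀ y, H y = H x → y = x

section

variable {m : ℕ} {X : Type} [TopologicalSpace X] [T2Space X] [ChartedSpace (E (m + 1)) X]
  [IsManifold (𝓡 (m + 1)) ∞ X] {H : X → E (m + 1)} {G : Set X} {Z : Set (E (m + 1))}

omit [T2Space X] [IsManifold (𝓡 (m + 1)) ∞ X] in
theorem Col.sigmaCompact (C : Col m X H G Z) : SigmaCompactSpace X := by
  refine ⟨⟨fun k : ℕ => H ⁻¹' closedBall 0 k, fun k => C.proper _ (isCompact_closedBall _ _), ?_⟩⟩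
  refine eq_univ_of_forall fun x => ?_
  obtain ⟨k, hk⟩ := exists_nat_ge ‖H x‖
  exact mem_iUnion.2 ⟨k, by rw [mem_preimage, mem_closedBall_zero_iff]; exact hk⟩

omit [T2Space X] [IsManifold (𝓡 (m + 1)) ∞ X] in
theorem Col.secondCountable (C : Col m X H G Z) : SecondCountableTopology X := by
  have := C.sigmaCompact
  exact ChartedSpace.secondCountable_of_sigmaCompact (E (m + 1)) X

omit [T2Space X] [IsManifold (𝓡 (m + 1)) ∞ X] in
theorem Col.isClosedMap (C : Col m X H G Z) : IsClosedMap H :=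
  (isProperMap_iff_isCompact_preimage.2 ⟨C.cont, fun _ hK => C.proper _ hK⟩).isClosedMap

omit [T2Space X] [IsManifold (𝓡 (m + 1)) ∞ X] in
/-- neighbourhoods of fibres contain preimages of neighbourhoods -/
theorem Col.nhds_fibre (C : Col m X H G Z) (p : E (m + 1)) (U : Set X) (hU : IsOpen U)
    (hpU : H ⁻¹' {p} ⊆ U) : ∃ W : Set (E (m + 1)), IsOpen W ∧ p ∈ W ∧ H ⁻¹' W ⊆ U := by
  refine ⟨(H '' Uᶜ)ᶜ, (C.isClosedMap _ hU.isClosed_compl).isOpen_compl, ?_, ?_⟩
  · rintro ⟨x, hx, rfl⟩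
    exact hx (hpU rfl)
  · intro x hx
    by_contra hcon
    exact hx ⟨x, hcon, rfl⟩

/-- the right inverse -/
def sec (H : X → E (m + 1)) (hs : Surjective H) : E (m + 1) → X := surjInv hs

omit [T2Space X] [IsManifold (𝓡 (m + 1)) ∞ X] [ChartedSpace (E (m + 1)) X] [TopologicalSpace X] in
theorem sec_spec (hs : Surjective H) (p : E (m + 1)) : H (sec H hs p) = p := surjInv_eq hs p

omit [T2Space X] [IsManifold (𝓡 (m + 1)) ∞ X] in
/-- the right inverse is continuous at the good values -/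
theorem Col.continuousAt_sec (C : Col m X H G Z) (p : E (m + 1))
    (hp : ∀ y, H y = p → y = sec H C.surj p) : ContinuousAt (sec H C.surj) p := by
  intro s hs
  obtain ⟨U, hUs, hU, hxU⟩ := mem_nhds_iff.1 hs
  obtain ⟨W, hW, hpW, hWU⟩ := C.nhds_fibre p U hU (by
    intro y hy
    rw [hp y hy]
    exact hxU)
  rw [mem_map]
  filter_upwards [hW.mem_nhds hpW] with q hq
  exact hUs (hWU (by rw [mem_preimage, sec_spec C.surj]; exact hq))

/-- good level sets -/
theorem Col.good_level (C : Col m X H G Z) (f : E (m + 1) → ℝ)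
    (hf : ContDiff ℝ ∞ f) (hnull : volume (f '' Z) = 0) {a b : ℝ}
    (hab : a < b) : ∃ c : ℝ, a < c ∧ c < b ∧ ∃ φ : X → ℝ, ContMDiff (𝓡 (m + 1)) 𝓘(ℝ, ℝ) ∞ φ ∧
      (∀ x, c < f (H x) → 0 < φ x) ∧ (∀ x, f (H x) < c → φ x < 0) ∧
      (∀ x, f (H x) = c → φ x = 0) ∧ (∀ x, φ x = 0 → f (H x) = c ∧ x ∈ G ∧
        (∀ y, H y = H x → y = x) ∧ mfderiv (𝓡 (m + 1)) 𝓘(ℝ, ℝ) φ x ≠ 0) := by
  have := C.sigmaCompact
  have := C.secondCountable
  have hfH : ∀ x ∈ G, ContMDiffAt (𝓡 (m + 1)) 𝓘(ℝ, ℝ) ∞ (fun x => f (H x)) x := fun x hx =>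
    ContMDiffAt.comp (g := f) x hf.contMDiff.contMDiffAt (C.smooth x hx)
  obtain ⟨c, hc1, hc2, hcZ, hc3⟩ := exists_regular_val (fun x => f (H x)) G C.isOpen hfH (f '' Z)
    hnull hab
  have hgd : ∀ x, f (H x) = c → x ∈ G ∧ ∀ y, H y = H x → y = x := fun x hx =>
    C.good x fun hcon => hcZ ⟨H x, hcon, hx⟩
  have hfc : ∀ x ∈ G, ContMDiffAt (𝓡 (m + 1)) 𝓘(ℝ, ℝ) ∞ (fun x => f (H x) - c) x := fun x hx =>
    ContMDiffAt.comp (g := fun p => f p - c) x (hf.sub contDiff_const).contMDiff.contMDiffAt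
      (C.smooth x hx)
  obtain ⟨φ, hφ, hφ1, hφ2, hφ3⟩ := sign_smooth (fun x => f (H x) - c)
    ((hf.continuous.comp C.cont).sub continuous_const) G C.isOpen hfc
    (fun x hx => (hgd x (sub_eq_zero.1 hx)).1)
  have h0 : ∀ x, f (H x) = c → φ x = 0 := by
    intro x hx
    have h1 := (hφ3 x (by rw [hx, sub_self])).eq_of_nhds
    rw [h1, hx, sub_self]
  refine ⟨c, hc1, hc2, φ, hφ, fun x hx => hφ1 x (sub_pos.2 hx), fun x hx => hφ2 x (sub_neg.2 hx),
    h0, fun x hx => ?_⟩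
  have hxc : f (H x) = c := by
    rcases lt_trichotomy (f (H x)) c with h | h | h
    · exact absurd hx (hφ2 x (sub_neg.2 h)).ne
    · exact h
    · exact absurd hx (hφ1 x (sub_pos.2 h)).ne'
  obtain ⟨hxG, hxu⟩ := hgd x hxc
  have hxd := hc3 x hxG hxc
  refine ⟨hxc, hxG, hxu, fun hcon => hxd ?_⟩
  have h1 : mfderiv (𝓡 (m + 1)) 𝓘(ℝ, ℝ) (fun x => f (H x) - c) x = 0 :=
    ((hφ3 x (by rw [hxc, sub_self])).symm.mfderiv_eq).trans hcon
  have h2 : MDifferentiableAt (𝓡 (m + 1)) 𝓘(ℝ, ℝ) (fun x => f (H x) - c) x :=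
    (hfc x hxG).mdifferentiableAt (by simp)
  have h3 : (fun x => f (H x)) = (fun t : ℝ => t + c) ∘ fun x => f (H x) - c := by
    funext y; simp
  have h4 : MDifferentiableAt 𝓘(ℝ, ℝ) 𝓘(ℝ, ℝ) (fun t : ℝ => t + c) (f (H x) - c) :=
    mdifferentiableAt_iff_differentiableAt.2 (by fun_prop)
  rw [h3, mfderiv_comp x h4 h2, h1]
  exact ContinuousLinearMap.comp_zero _

/-- engulfing in a slice of a box -/
theorem Col.slice_engulf (C : Col m X H G Z) (j : Fin (m + 1))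
    (a b : Fin (m + 1) → ℝ) (hab : ∀ i, a i < b i) (c : ℝ) (hc1 : a j < c) (hc2 : c < b j)
    (φ : X → ℝ) (hφ : ContMDiff (𝓡 (m + 1)) 𝓘(ℝ, ℝ) ∞ φ) (h0 : ∀ x, H x j = c → φ x = 0)
    (hd : ∀ x, φ x = 0 → H x j = c ∧ x ∈ G ∧ (∀ y, H y = H x → y = x) ∧
      mfderiv (𝓡 (m + 1)) 𝓘(ℝ, ℝ) φ x ≠ 0)
    (K : Set X) (hK : IsCompact K) (hKS : ∀ x ∈ K, H x ∈ Bx a b ∧ φ x = 0) :
    ∃ f : E m → X, Injective f ∧ ContMDiff (𝓡 m) (𝓡 (m + 1)) ∞ f ∧
      (∀ x, Injective (mfderiv (𝓡 m) (𝓡 (m + 1)) f x)) ∧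
      (∀ x, H (f x) ∈ Bx a b ∧ φ (f x) = 0) ∧ K ⊆ range f := by
  have hs := fun p => sec_spec C.surj p
  have hcs : ∀ y : E m, ContinuousAt (sec H C.surj) (psB j a b c y) := by
    intro y
    refine C.continuousAt_sec _ fun z hz => ?_
    refine (hd _ (h0 _ (?_ : H (sec H C.surj (psB j a b c y)) j = c))).2.2.1 z ?_
    · rw [hs, psB_same]
    · rw [hs]; exact hz
  refine level_engulf (hEng m) φ {x | H x ∈ Bx a b ∧ φ x = 0} (H ⁻¹' Bx a b)
    ((isOpen_Bx a b).preimage C.cont) hφ (fun x hx => hx.1) (fun x hx => ?_)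
    (fun x hx => (hd x hx.2).2.2.2) (fun x => thB j a b (H x)) (fun x hx => ?_)
    (fun y => sec H C.surj (psB j a b c y)) (continuous_iff_continuousAt.2 fun y =>
      (hcs y).comp (continuous_psB j a b c).continuousAt)
    (fun y => ?_) (fun y => ?_) (fun x hx => ?_) K hK (fun x hx => hKS x hx)
  · exact ⟨fun h => h.2, fun h => ⟨hx, h⟩⟩
  · exact ContMDiffAt.comp (g := thB j a b) x (contDiffAt_thB j a b hx.1).contMDiffAt
      (C.smooth x (hd x hx.2).2.1)
  · refine ⟨?_, h0 _ (by rw [hs, psB_same])⟩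
    rw [hs]
    intro i
    refine Fin.succAboveCases j ?_ (fun k => ?_) i
    · rw [psB_same]; exact ⟨hc1, hc2⟩
    · rw [psB_succAbove]; exact sig_mem (hab _) _
  · simp only [hs]
    ext k
    simp only [thB, psB_succAbove]
    exact tau_sig (hab _) _
  · have h1 : psB j a b c (thB j a b (H x)) = H x := by
      ext i
      refine Fin.succAboveCases j ?_ (fun k => ?_) i
      · rw [psB_same]
        exact ((hd x hx.2).1).symm
      · rw [psB_succAbove]
        simp only [thB]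
        exact sig_tau (hx.1 _).1 (hx.1 _).2
    rw [h1]
    exact (hd x hx.2).2.2.1 _ (hs _)

/-- engulfing in a sphere minus a point -/
theorem Col.sphere_engulf (C : Col m X H G Z) (r : ℝ) (hr : 0 < r) (s₀ : X)
    (hs₀ : H s₀ = cn r 0) (φ : X → ℝ) (hφ : ContMDiff (𝓡 (m + 1)) 𝓘(ℝ, ℝ) ∞ φ)
    (h0 : ∀ x, ‖H x‖ ^ 2 = r ^ 2 → φ x = 0)
    (hd : ∀ x, φ x = 0 → ‖H x‖ ^ 2 = r ^ 2 ∧ x ∈ G ∧ (∀ y, H y = H x → y = x) ∧
      mfderiv (𝓡 (m + 1)) 𝓘(ℝ, ℝ) φ x ≠ 0)
    (K : Set X) (hK : IsCompact K) (hKS : ∀ x ∈ K, φ x = 0 ∧ x ≠ s₀) :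
    ∃ f : E m → X, Injective f ∧ ContMDiff (𝓡 m) (𝓡 (m + 1)) ∞ f ∧
      (∀ x, Injective (mfderiv (𝓡 m) (𝓡 (m + 1)) f x)) ∧
      (∀ x, φ (f x) = 0 ∧ f x ≠ s₀) ∧ K ⊆ range f := by
  have hs := fun p => sec_spec C.surj p
  have hcs : ∀ y : E m, ContinuousAt (sec H C.surj) (stP r y) := by
    intro y
    refine C.continuousAt_sec _ fun z hz => ?_
    refine (hd _ (h0 _ (?_ : ‖H (sec H C.surj (stP r y))‖ ^ 2 = r ^ 2))).2.2.1 z ?_
    · rw [hs, norm_stP hr]
    · rw [hs]; exact hz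
  have key : ∀ x, φ x = 0 → x ≠ s₀ → H x 0 ≠ r := by
    intro x h1 h2 h3
    apply h2
    have h4 := norm_sq_split (H x)
    have h4' := (hd x h1).1
    have h5 : ‖tl (H x)‖ ^ 2 = 0 := by rw [h3] at h4; linarith
    have h6 : tl (H x) = 0 := by
      rw [← norm_eq_zero]
      exact pow_eq_zero_iff (two_ne_zero) |>.1 h5
    have h7 : H s₀ = H x := by
      rw [hs₀, ← cn_tl (H x), h6, h3]
    exact ((hd x h1).2.2.1 s₀ h7).symm
  refine level_engulf (hEng m) φ {x | φ x = 0 ∧ x ≠ s₀} {s₀}ᶜ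
    isOpen_compl_singleton hφ (fun x hx => hx.2) (fun x hx => ?_)
    (fun x hx => (hd x hx.1).2.2.2) (fun x => stT r (H x)) (fun x hx => ?_)
    (fun y => sec H C.surj (stP r y)) (continuous_iff_continuousAt.2 fun y =>
      (hcs y).comp (continuous_stP hr).continuousAt)
    (fun y => ?_) (fun y => ?_) (fun x hx => ?_) K hK (fun x hx => hKS x hx)
  · exact ⟨fun h => h.1, fun h => ⟨h, hx⟩⟩
  · have h1 : r - H x 0 ≠ 0 := fun h => key x hx.1 hx.2 (by linarith)
    have h2 : ContDiffAt ℝ ∞ (stT r : E (m + 1) → E m) (H x) := by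
      unfold stT
      refine ContDiffAt.smul (f := fun p : E (m + 1) => r / (r - p 0))
        (g := fun p : E (m + 1) => (tl p : E m)) ?_ (tl (m := m)).contDiff.contDiffAt
      refine ContDiffAt.div contDiffAt_const ?_ h1
      fun_prop
    exact ContMDiffAt.comp (g := (stT r : E (m + 1) → E m)) x h2.contMDiffAt
      (C.smooth x (hd x hx.1).2.1)
  · refine ⟨h0 _ (by rw [hs, norm_stP hr]), fun h => ?_⟩
    have h1 : stP r y = cn r 0 := by rw [← hs₀, ← h, hs]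
    have h2 := stP_zero_lt hr y
    rw [h1, cn_zero] at h2
    exact lt_irrefl _ h2
  · simp only [hs]
    exact stT_stP hr y
  · rw [stP_stT hr (hd x hx.1).1 (key x hx.1 hx.2)]
    exact (hd x hx.1).2.2.1 _ (hs _)

/-- small boxes are embeddable -/
theorem Col.emb_small (C : Col m X H G Z) (hF : ∀ p, Emb (m + 1) (H ⁻¹' {p})) (R : ℝ) :
    ∃ δ : ℝ, 0 < δ ∧ ∀ a b : Fin (m + 1) → ℝ,
    (∀ i, -R ≤ a i ∧ b i ≤ R) → (∀ i, b i - a i < δ) → Emb (m + 1) (H ⁻¹' Bx a b) := by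
  have h0 : ∀ p : E (m + 1), ∃ W : Set (E (m + 1)), IsOpen W ∧ p ∈ W ∧ Emb (m + 1) (H ⁻¹' W) := by
    intro p
    obtain ⟨U, k, hU, hpU, hk, hkd⟩ := hF p
    obtain ⟨W, hW, hpW, hWU⟩ := C.nhds_fibre p U hU hpU
    exact ⟨W, hW, hpW, U, k, hU, hWU, hk, hkd⟩
  choose W hW1 hW2 hW3 using h0
  obtain ⟨δ, hδ, hδ'⟩ := lebesgue_number_lemma_of_metric (isCompact_Cu (m + 1) R)
    (c := fun p : E (m + 1) => W p) (fun p => hW1 p) (by
      intro p _
      exact mem_iUnion.2 ⟨p, hW2 p⟩)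
  refine ⟨δ / ((m + 1 : ℕ) + 1), by positivity, fun a b hab hs => ?_⟩
  by_cases hne : (Bx a b).Nonempty
  · obtain ⟨p, hp⟩ := hne
    have hpC : p ∈ Cu (m + 1) R := fun i => abs_le.2 ⟨by linarith [(hab i).1, (hp i).1],
      by linarith [(hab i).2, (hp i).2]⟩
    obtain ⟨q, hq⟩ := hδ' p hpC
    refine emb_mono (hW3 q) fun y hy => ?_
    have h1 : H y ∈ ball p δ := by
      rw [mem_ball]
      refine dist_lt_of_coord hδ fun i => ?_
      have h2 : H y i ∈ Ioo (a i) (b i) := hy i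
      rw [abs_le]
      constructor <;> linarith [hs i, (hp i).1, (hp i).2, h2.1, h2.2]
    exact hq h1
  · rw [not_nonempty_iff_eq_empty] at hne
    rw [hne, preimage_empty]
    exact emb_mono (hF 0) (empty_subset _)

/-- the splitting step -/
theorem Col.emb_split (C : Col m X H G Z) (hF : ∀ p, Emb (m + 1) (H ⁻¹' {p}))
    (hnull : ∀ j, volume ((fun p : E (m + 1) => p j) '' Z) = 0) (R δ : ℝ) (hδ : 0 < δ) (k : ℕ)
    (hk : k < m + 1)
    (ih : ∀ a b : Fin (m + 1) → ℝ, (∀ i, -R ≤ a i ∧ b i ≤ R) →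
      (∀ i : Fin (m + 1), k ≤ i.val → b i - a i < δ) →
      ∀ K : Set X, IsCompact K → K ⊆ H ⁻¹' Bx a b → Emb (m + 1) K) (N : ℕ) :
    ∀ a b : Fin (m + 1) → ℝ, (∀ i, -R ≤ a i ∧ b i ≤ R) →
      (∀ i : Fin (m + 1), k + 1 ≤ i.val → b i - a i < δ) →
      (b ⟨k, hk⟩ - a ⟨k, hk⟩ < δ + N * (δ / 4)) →
      ∀ K : Set X, IsCompact K → K ⊆ H ⁻¹' Bx a b → Emb (m + 1) K := by
  set j : Fin (m + 1) := ⟨k, hk⟩ with hj
  induction N with
  | zero =>
    intro a b hab hs hN K hK hKB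
    refine ih a b hab (fun i hi => ?_) K hK hKB
    rcases hi.eq_or_lt with h | h
    · have h1 : i = j := Fin.ext h.symm
      rw [h1]
      simpa using hN
    · exact hs i h
  | succ N ihN =>
    intro a b hab hs hN K hK hKB
    by_cases hne : (Bx a b).Nonempty
    swap
    · rw [not_nonempty_iff_eq_empty] at hne
      rw [hne, preimage_empty] at hKB
      exact emb_mono (hF 0) (hKB.trans (empty_subset _))
    obtain ⟨p, hp⟩ := hne
    have hlt : ∀ i, a i < b i := fun i => (hp i).1.trans (hp i).2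
    by_cases hsm : b j - a j < δ
    · refine ih a b hab (fun i hi => ?_) K hK hKB
      rcases hi.eq_or_lt with h | h
      · have h1 : i = j := Fin.ext h.symm
        rw [h1]
        exact hsm
      · exact hs i h
    push Not at hsm
    obtain ⟨c, hc1, hc2, φ, hφ, hφpos, hφneg, hφ0, hφd⟩ := C.good_level (fun p => p j)
      (by fun_prop) (hnull j)
      (show (a j + b j) / 2 - δ / 8 < (a j + b j) / 2 + δ / 8 by linarith)
    have hca : a j < c := by linarith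
    have hcb : c < b j := by linarith
    obtain ⟨f, hf1, hf2, hf3, hf4, hf5⟩ := C.slice_engulf j a b hlt c hca hcb
      φ hφ hφ0 hφd (K ∩ {x | φ x = 0})
      (hK.inter_right (isClosed_eq hφ.continuous continuous_const))
      (fun x hx => ⟨hKB hx.1, hx.2⟩)
    have h8 : (0 : ℝ) < δ / 8 := by linarith
    refine hSum m X (H ⁻¹' Bx a b) K φ f hφ hK hKB hf1 hf2
      hf3 (fun x => (hf4 x).2) (fun x => (hφd _ (hf4 x).2).2.2.2) (fun x => (hf4 x).1)
      (fun x hx hx0 => hf5 ⟨hx, hx0⟩) ?_ ?_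
    · intro K' hK' hKB' hneg
      refine ihN a (update b j (c + δ / 8)) ?_ ?_ ?_ K' hK' ?_
      · intro i
        refine ⟨(hab i).1, ?_⟩
        by_cases h : i = j
        · rw [h, update_self]
          linarith [(hab j).2]
        · rw [update_of_ne h]; exact (hab i).2
      · intro i hi
        have h : i ≠ j := by
          rintro rfl
          simp [hj] at hi
        rw [update_of_ne h]
        exact hs i hi
      · rw [update_self]
        push_cast at hN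
        linarith
      · intro x hx i
        by_cases h : i = j
        · rw [h, update_self]
          have h1 : H x j ≤ c := by
            by_contra hcon
            exact absurd (hneg x hx) (not_le.2 (hφpos x (not_le.1 hcon)))
          exact ⟨(hKB' hx j).1, by linarith⟩
        · rw [update_of_ne h]; exact hKB' hx i
    · intro K' hK' hKB' hpos
      refine ihN (update a j (c - δ / 8)) b ?_ ?_ ?_ K' hK' ?_
      · intro i
        refine ⟨?_, (hab i).2⟩
        by_cases h : i = j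
        · rw [h, update_self]
          linarith [(hab j).1]
        · rw [update_of_ne h]; exact (hab i).1
      · intro i hi
        have h : i ≠ j := by
          rintro rfl
          simp [hj] at hi
        rw [update_of_ne h]
        exact hs i hi
      · rw [update_self]
        push_cast at hN
        linarith
      · intro x hx i
        by_cases h : i = j
        · rw [h, update_self]
          have h1 : c ≤ H x j := by
            by_contra hcon
            exact absurd (hpos x hx) (not_le.2 (hφneg x (not_le.1 hcon)))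
          exact ⟨by linarith, (hKB' hx j).2⟩
        · rw [update_of_ne h]; exact hKB' hx i

/-- all compact subsets are embeddable -/
theorem Col.emb_all (C : Col m X H G Z) (hF : ∀ p, Emb (m + 1) (H ⁻¹' {p}))
    (hnull : ∀ j, volume ((fun p : E (m + 1) => p j) '' Z) = 0) (K : Set X) (hK : IsCompact K) :
    Emb (m + 1) K := by
  obtain ⟨R₀, hR₀⟩ := (hK.image C.cont).isBounded.subset_closedBall (0 : E (m + 1))
  set R := max R₀ 0 + 1 with hR
  have hRpos : 0 < R := by positivity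
  obtain ⟨δ, hδ, hsmall⟩ := C.emb_small hF R
  have key : ∀ k : ℕ, k ≤ m + 1 → ∀ a b : Fin (m + 1) → ℝ, (∀ i, -R ≤ a i ∧ b i ≤ R) →
      (∀ i : Fin (m + 1), k ≤ i.val → b i - a i < δ) →
      ∀ K : Set X, IsCompact K → K ⊆ H ⁻¹' Bx a b → Emb (m + 1) K := by
    intro k
    induction k with
    | zero =>
      intro _ a b hab hs K _ hKB
      exact emb_mono (hsmall a b hab fun i => hs i (Nat.zero_le _)) hKB
    | succ k ih =>
      intro hk a b hab hs K hK hKB
      obtain ⟨N, hN⟩ := exists_nat_gt (4 * (b ⟨k, hk⟩ - a ⟨k, hk⟩) / δ)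
      refine C.emb_split hF hnull R δ hδ k hk (ih (by omega)) N a b hab hs ?_ K hK hKB
      rw [div_lt_iff₀ hδ] at hN
      linarith
  refine key (m + 1) le_rfl (fun _ => -R) (fun _ => R) (fun _ => ⟨le_rfl, le_rfl⟩)
    (fun i hi => absurd i.2 (not_lt.2 hi)) K hK fun x hx i => ?_
  have h1 : ‖H x‖ ≤ R₀ := by
    simpa using hR₀ ⟨x, hx, rfl⟩
  have h2 : |H x i| ≤ ‖H x‖ := by
    have := EuclideanSpace.norm_sq_eq (H x)
    refine abs_le_of_sq_le_sq ?_ (norm_nonneg _)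
    rw [this, ← sq_abs, ← Real.norm_eq_abs]
    exact Finset.single_le_sum (f := fun i => ‖(H x) i‖ ^ 2) (fun i _ => by positivity)
      (Finset.mem_univ i)
  have h3 : |H x i| < R := by
    have := le_max_left R₀ 0
    linarith
  exact ⟨(abs_lt.1 h3).1, (abs_lt.1 h3).2⟩

/-- engulfing -/
theorem Col.eng (C : Col m X H G Z) (hF : ∀ p, Emb (m + 1) (H ⁻¹' {p}))
    (hnull : ∀ j, volume ((fun p : E (m + 1) => p j) '' Z) = 0)
    (hnull' : volume ((fun p : E (m + 1) => ‖p‖ ^ 2) '' Z) = 0) : Eng (m + 1) X := by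
  intro K hK
  obtain ⟨R₀, hR₀⟩ := (hK.image C.cont).isBounded.subset_closedBall (0 : E (m + 1))
  obtain ⟨c, hc1, -, φ, hφ, hφpos, hφneg, hφ0, hφd⟩ := C.good_level
    (fun p => ‖p‖ ^ 2) (contDiff_norm_sq ℝ) hnull'
    (show (max R₀ 0) ^ 2 < (max R₀ 0) ^ 2 + 1 by linarith)
  have hcpos : 0 < c := lt_of_le_of_lt (by positivity) hc1
  set r := Real.sqrt c with hr
  have hrpos : 0 < r := Real.sqrt_pos.2 hcpos
  have hrc : r ^ 2 = c := Real.sq_sqrt hcpos.le
  have hle : ∀ x, φ x ≤ 0 ↔ ‖H x‖ ^ 2 ≤ c := by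
    intro x
    constructor
    · intro h
      by_contra hcon
      exact absurd h (not_le.2 (hφpos x (not_le.1 hcon)))
    · intro h
      rcases h.lt_or_eq with h | h
      · exact (hφneg x h).le
      · exact (hφ0 x h).le
  have hball : ∀ t : ℝ, IsCompact {x : X | ‖H x‖ ^ 2 ≤ t} := by
    intro t
    refine C.proper {p : E (m + 1) | ‖p‖ ^ 2 ≤ t} ?_
    refine Metric.isCompact_of_isClosed_isBounded (isClosed_le (by fun_prop) continuous_const) ?_
    refine (Metric.isBounded_iff_subset_closedBall 0).2 ⟨Real.sqrt t, fun p hp => ?_⟩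
    rw [mem_closedBall_zero_iff]
    exact Real.le_sqrt_of_sq_le hp
  obtain ⟨U, k, hU, hDU, hk, hkd⟩ := C.emb_all hF hnull _ (hball (c + 1))
  have : Nonempty X := ⟨sec H C.surj 0⟩
  obtain ⟨κ, hκ⟩ : ∃ κ : E (m + 1) → X, ∀ x ∈ U, κ (k x) = x :=
    ⟨invFunOn k U, fun x hx => hk.leftInvOn_invFunOn hx⟩
  have hκd : ∀ x ∈ U, LD (m + 1) κ (k x) := fun x hx => LD.inverse hU hkd hκ hx
  have hkc : ContinuousOn k U := fun x hx => (hkd x hx).continuousAt.continuousWithinAt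
  -- the open subset `N` and the function
  set N : Set (E (m + 1)) := k '' {x : X | x ∈ U ∧ ‖H x‖ ^ 2 < c + 1} with hN
  have hUo : IsOpen {x : X | x ∈ U ∧ ‖H x‖ ^ 2 < c + 1} :=
    hU.inter (isOpen_lt (C.cont.norm.pow 2) continuous_const)
  have hNo : IsOpen N := isOpen_image_of_LD hUo fun x hx => hkd x hx.1
  have hNm : ∀ z ∈ N, κ z ∈ U ∧ k (κ z) = z := by
    rintro _ ⟨x, hx, rfl⟩
    rw [hκ x hx.1]
    exact ⟨hx.1, rfl⟩
  have hκN : ∀ z ∈ N, LD (m + 1) κ z := by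
    rintro _ ⟨x, hx, rfl⟩
    exact hκd x hx.1
  have hDU0 : ∀ x, φ x ≤ 0 → x ∈ U ∧ ‖H x‖ ^ 2 < c + 1 := fun x hx =>
    ⟨hDU (show ‖H x‖ ^ 2 ≤ c + 1 by linarith [(hle x).1 hx]), by linarith [(hle x).1 hx]⟩
  have hψd : ∀ z ∈ N, ContDiffAt ℝ ∞ (fun z => φ (κ z)) z := fun z hz =>
    contMDiffAt_iff_contDiffAt.1 (ContMDiffAt.comp (g := φ) z (hφ _) (hκN z hz).contMDiffAt)
  have hcomp : IsCompact {z | z ∈ N ∧ φ (κ z) ≤ 0} := by
    have h1 : {z | z ∈ N ∧ φ (κ z) ≤ 0} = k '' {x : X | ‖H x‖ ^ 2 ≤ c} := by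
      ext z
      constructor
      · rintro ⟨hz, hz0⟩
        exact ⟨κ z, (hle _).1 hz0, (hNm z hz).2⟩
      · rintro ⟨x, hx, rfl⟩
        have hx' : φ x ≤ 0 := (hle x).2 hx
        have h2 := hDU0 x hx'
        refine ⟨⟨x, h2, rfl⟩, ?_⟩
        rw [hκ x h2.1]
        exact hx'
    rw [h1]
    exact (hball c).image_of_continuousOn (hkc.mono fun x hx => (hDU0 x ((hle x).2 hx)).1)
  have hφk : ∀ x ∈ U, φ =ᶠ[𝓝 x] (fun z => φ (κ z)) ∘ k := by
    intro x hx
    filter_upwards [hU.mem_nhds hx] with y hy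
    simp [hκ y hy]
  have hregN : ∀ z ∈ N, φ (κ z) = 0 → fderiv ℝ (fun z => φ (κ z)) z ≠ 0 := by
    intro z hz hz0 hcon
    obtain ⟨hxU, hkz⟩ := hNm z hz
    refine (hφd (κ z) hz0).2.2.2 ?_
    have h1 : mfderiv (𝓡 (m + 1)) 𝓘(ℝ, ℝ) φ (κ z) =
        mfderiv (𝓡 (m + 1)) 𝓘(ℝ, ℝ) ((fun z => φ (κ z)) ∘ k) (κ z) :=
      (hφk _ hxU).mfderiv_eq
    have h3 : MDifferentiableAt (𝓡 (m + 1)) 𝓘(ℝ, ℝ) (fun z => φ (κ z)) (k (κ z)) := by
      rw [hkz]
      exact mdifferentiableAt_iff_differentiableAt.2 ((hψd z hz).differentiableAt (by simp))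
    have h4 : mfderiv (𝓡 (m + 1)) 𝓘(ℝ, ℝ) (fun z => φ (κ z)) (k (κ z)) = 0 := by
      rw [hkz, mfderiv_eq_fderiv]
      exact hcon
    rw [h1, mfderiv_comp _ h3 (hkd _ hxU).mdifferentiableAt, h4]
    exact ContinuousLinearMap.zero_comp _
  -- the point
  set s₀ : X := sec H C.surj (cn r 0) with hs₀
  have hHs₀ : H s₀ = cn r 0 := sec_spec C.surj _
  have hφs₀ : φ s₀ = 0 := by
    refine hφ0 _ ?_
    change ‖H s₀‖ ^ 2 = c
    rw [hHs₀, norm_cn_sq, ← hrc]
    simp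
  have hs₀U := hDU0 s₀ hφs₀.le
  have hKin : ∀ x ∈ K, ‖H x‖ ^ 2 < c := by
    intro x hx
    have h1 : ‖H x‖ ≤ R₀ := by simpa using hR₀ ⟨x, hx, rfl⟩
    have h2 : ‖H x‖ ^ 2 ≤ (max R₀ 0) ^ 2 :=
      pow_le_pow_left₀ (norm_nonneg _) (h1.trans (le_max_left _ _)) 2
    linarith
  obtain ⟨g, hg1, hg2, hg3, hg4⟩ := hMazur m N (fun z => φ (κ z)) (k s₀) hNo hψd hcomp hregN
    ⟨s₀, hs₀U, rfl⟩ (by simp only [hκ s₀ hs₀U.1, hφs₀]) (by
      intro K' hK' hK'S
      have hK1 : IsCompact (κ '' K') :=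
        hK'.image_of_continuousOn fun z hz => (hκN z (hK'S z hz).1).continuousAt.continuousWithinAt
      obtain ⟨f, hf1, hf2, hf3, hf4, hf5⟩ := C.sphere_engulf r hrpos s₀ hHs₀ φ hφ
        (fun x hx => hφ0 x (by rw [hx, hrc])) (fun x hx => by
          have h := hφd x hx
          exact ⟨by rw [hrc]; exact h.1, h.2⟩) (κ '' K')
        hK1 (by
          rintro _ ⟨z, hz, rfl⟩
          obtain ⟨h1, h2, h3⟩ := hK'S z hz
          refine ⟨h2, fun h4 => h3 ?_⟩
          rw [← (hNm z h1).2, h4])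
      have hfU : ∀ x, f x ∈ U ∧ ‖H (f x)‖ ^ 2 < c + 1 := fun x => hDU0 _ (hf4 x).1.le
      have hkf : ContMDiff (𝓡 m) (𝓡 (m + 1)) ∞ (fun x => k (f x)) := fun x =>
        ContMDiffAt.comp (g := k) x (hkd _ (hfU x).1).contMDiffAt (hf2 x)
      refine ⟨fun x => k (f x), fun a b hab => hf1 (hk (hfU a).1 (hfU b).1 hab),
        hkf.contDiff, fun x => ?_, fun x => ⟨⟨f x, hfU x, rfl⟩, ?_, ?_⟩, ?_⟩
      · have h1 : fderiv ℝ (fun x => k (f x)) x =
            (mfderiv (𝓡 (m + 1)) (𝓡 (m + 1)) k (f x)).comp (mfderiv (𝓡 m) (𝓡 (m + 1)) f x) := by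
          rw [← mfderiv_eq_fderiv]
          exact mfderiv_comp x (hkd _ (hfU x).1).mdifferentiableAt (hf2.mdifferentiableAt (by simp))
        rw [h1]
        exact (hkd _ (hfU x).1).mfderiv_injective.comp (hf3 x)
      · simp only [hκ _ (hfU x).1]
        exact (hf4 x).1
      · intro h
        exact (hf4 x).2 (hk (hfU x).1 hs₀U.1 h)
      · intro z hz
        obtain ⟨y, hy⟩ := hf5 ⟨z, hz, rfl⟩
        refine ⟨y, ?_⟩
        simp only [hy]
        exact (hNm z (hK'S z hz).1).2)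
    (k '' K) (by
      refine hK.image_of_continuousOn (hkc.mono fun x hx => (hDU0 x ?_).1)
      exact (hle x).2 (hKin x hx).le) (by
      rintro _ ⟨x, hx, rfl⟩
      have h3 : φ x < 0 := hφneg x (hKin x hx)
      have h4 := hDU0 x h3.le
      refine ⟨⟨x, h4, rfl⟩, ?_⟩
      simp only [hκ x h4.1]
      exact h3)
  refine ⟨fun x => κ (g x), fun a b hab => hg1 ?_, fun x => LD.comp_fun (hκN _ (hg4 x).1) (hg2 x),
    fun x hx => ?_⟩
  · rw [← (hNm _ (hg4 a).1).2, ← (hNm _ (hg4 b).1).2]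
    exact congrArg k hab
  · obtain ⟨y, hy⟩ := hg3 ⟨x, hx, rfl⟩
    refine ⟨y, ?_⟩
    simp only [hy]
    exact hκ x (hDU0 x ((hle x).2 (hKin x hx).le)).1

/-- a value is good if its fibre is one point, near which `f` is smooth -/
def GoodVal {n : ℕ} {M N : Type} [TopologicalSpace M] [ChartedSpace (E n) M] [TopologicalSpace N]
    [ChartedSpace (E n) N] (f : M → N) (y : N) : Prop :=
  ∃ x, f ⁻¹' {y} = {x} ∧ ∀ᶠ z in 𝓝 x, ContMDiffAt (𝓡 n) (𝓡 n) ∞ f z

/-- **Recognition of the Euclidean space by collapsing maps.** -/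
theorem recognition (hc : Continuous H) (hs : Surjective H)
    (hp : ∀ K : Set (E (m + 1)), IsCompact K → IsCompact (H ⁻¹' K))
    (hB : Measure.hausdorffMeasure 1 {p : E (m + 1) | ¬ GoodVal (n := m + 1) H p} = 0)
    (hF : ∀ p, ¬ GoodVal (n := m + 1) H p → Emb (m + 1) (H ⁻¹' {p})) :
    Nonempty (Diffeomorph (𝓡 (m + 1)) (𝓡 (m + 1)) X (E (m + 1)) ∞) := by
  set G : Set X := {x | ∀ᶠ y in 𝓝 x, ContMDiffAt (𝓡 (m + 1)) (𝓡 (m + 1)) ∞ H y} with hGdef
  have C : Col m X H G {p : E (m + 1) | ¬ GoodVal (n := m + 1) H p} := by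
    refine ⟨hc, hs, hp, isOpen_setOfPred_eventually_nhds,
      fun x hx => Filter.Eventually.self_of_nhds hx, fun x hx => ?_⟩
    have hx' : GoodVal (n := m + 1) H (H x) := by
      by_contra hcon
      exact hx hcon
    obtain ⟨z, hz1, hz2⟩ := hx'
    have h1 : x = z := by
      have : x ∈ H ⁻¹' {H x} := rfl
      rw [hz1] at this
      exact this
    subst h1
    refine ⟨hz2, fun y hy => ?_⟩
    have : y ∈ H ⁻¹' {H x} := hy
    rw [hz1] at this
    exact this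
  have := C.sigmaCompact
  have hnull : ∀ f : E (m + 1) → ℝ, ContDiff ℝ 1 f →
      volume (f '' {p : E (m + 1) | ¬ GoodVal (n := m + 1) H p}) = 0 := by
    intro f hf
    have h1 := null_image hB f fun x _ => hf.contDiffAt
    rw [hausdorffMeasure_real] at h1
    exact h1
  have hF' : ∀ p, Emb (m + 1) (H ⁻¹' {p}) := by
    intro p
    by_cases h : GoodVal (n := m + 1) H p
    · obtain ⟨x, hx, -⟩ := h
      rw [hx]
      obtain ⟨U, hU, hxU, hE⟩ := emb_nhds (n := m + 1) x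
      exact emb_mono hE (singleton_subset_iff.2 hxU)
    · exact hF p h
  exact Pool.Agent.Y496.SH.monotone (Pool.Agent.Y784.SH.ext Pool.Agent.Y248.SH.germ) (m + 1) X
    (C.eng hF' (fun j => hnull (fun p => p j) (by fun_prop))
      (hnull (fun p => ‖p‖ ^ 2) (contDiff_norm_sq ℝ)))

end

end Pool.Agent.U898.CM
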