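import Pool.Agent.U898.CM.Mod

/-!
# Covering a compact set of length zero by disjoint small open cells
-/

set_option autoImplicit false

open Set Filter Topology Metric Function MeasureTheory
open scoped Manifold ContDiff ENNReal NNReal

noncomputable section

namespace Pool.Agent.U898.CM.Grid

open Pool.Agent.Y522 Pool.Agent.N550.KH Pool.Agent.N550.SH

variable {n : ℕ}

/-! ### boxes as cells -/

theorem contDiff_sig (a b : ℝ) : ContDiff ℝ ∞ (sig a b) := by
  unfold sig
  exact contDiff_const.add (contDiff_const.mul ((Real.contDiff_arctan.div_const _).add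
    contDiff_const))

/-- the diffeomorphism of the Euclidean space onto a box -/
def bd (a b : Fin n → ℝ) (z : E n) : E n := WithLp.toLp 2 fun k => sig (a k) (b k) (z k)

theorem bd_apply (a b : Fin n → ℝ) (z : E n) (k : Fin n) : bd a b z k = sig (a k) (b k) (z k) :=
  rfl

theorem bd_mem {a b : Fin n → ℝ} (h : ∀ k, a k < b k) (z : E n) : bd a b z ∈ Bx a b :=
  fun k => sig_mem (h k) (z k)

theorem bd_inj {a b : Fin n → ℝ} (h : ∀ k, a k < b k) : Injective (bd a b) := by
  intro z w hzw
  ext k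
  have h1 := congrArg (fun p : E n => tau (a k) (b k) (p k)) hzw
  simp only [bd_apply, tau_sig (h k)] at h1
  exact h1

theorem bd_surj {a b : Fin n → ℝ} (p : E n) (hp : p ∈ Bx a b) : ∃ z, bd a b z = p := by
  refine ⟨WithLp.toLp 2 fun k => tau (a k) (b k) (p k), ?_⟩
  ext k
  exact sig_tau (hp k).1 (hp k).2

theorem contDiff_bd (a b : Fin n → ℝ) : ContDiff ℝ ∞ (bd a b) := by
  rw [contDiff_euclidean]
  intro k
  exact (contDiff_sig (a k) (b k)).comp (by fun_prop)

theorem bd_LD {a b : Fin n → ℝ} (h : ∀ k, a k < b k) (z : E n) : LD n (bd a b) z := by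
  refine Moeb.LD_of_left (g := fun p : E n => WithLp.toLp 2 fun k => tau (a k) (b k) (p k))
    (Eventually.of_forall fun y => (contDiff_bd a b).contDiffAt) ?_
    (Eventually.of_forall fun y => ?_)
  · have h1 : ContDiffAt ℝ ∞ (fun p : E n => (WithLp.toLp 2 fun k => tau (a k) (b k) (p k) : E n))
        (bd a b z) := by
      rw [contDiffAt_euclidean]
      intro k
      have h2 := sig_mem (h k) (z k)
      exact ContDiffAt.comp (g := tau (a k) (b k)) (f := fun p : E n => p k) (bd a b z)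
        (contDiffAt_tau h2.1 h2.2) (by fun_prop)
    exact h1.differentiableAt (by simp)
  · ext k
    exact tau_sig (h k) (y k)

/-! ### the grid -/

theorem exists_shift (S : Set ℝ) (hS : volume S = 0) (η : ℝ) :
    ∃ t : ℝ, ∀ s ∈ S, ∀ k : ℤ, s ≠ t + k * η := by
  have h1 : volume (⋃ k : ℤ, (fun t : ℝ => t + k * η) ⁻¹' S) = 0 := by
    rw [measure_iUnion_null_iff]
    intro k
    rw [measure_preimage_add_right]
    exact hS
  have h2 : (⋃ k : ℤ, (fun t : ℝ => t + k * η) ⁻¹' S) ≠ univ := by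
    intro h
    rw [h, Real.volume_univ] at h1
    exact ENNReal.top_ne_zero h1
  obtain ⟨t, ht⟩ := (ne_univ_iff_exists_notMem _).1 h2
  refine ⟨t, fun s hs k hk => ht (mem_iUnion.2 ⟨k, ?_⟩)⟩
  rw [mem_preimage, ← hk]
  exact hs

/-- **The Euclidean case.** -/
theorem boxes (S B W : Set (E n)) (hS : ∀ j : Fin n, volume ((fun p : E n => p j) '' S) = 0)
    (hB : IsCompact B) (hBS : B ⊆ S) (hW : IsOpen W) (hBW : B ⊆ W) :
    ∃ (ι : Type) (_ : Fintype ι) (a b : ι → Fin n → ℝ), (∀ i k, a i k < b i k) ∧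
      (B ⊆ ⋃ i, Bx (a i) (b i)) ∧ (∀ i j, i ≠ j → Disjoint (Bx (a i) (b i)) (Bx (a j) (b j))) ∧
      (∀ i, {p : E n | ∀ k, a i k ≤ p k ∧ p k ≤ b i k} ⊆ W) ∧
      ∀ i, {p : E n | ∀ k, a i k ≤ p k ∧ p k ≤ b i k} ∩ S ⊆ Bx (a i) (b i) := by
  classical
  obtain ⟨δ, hδ, hδW⟩ := hB.exists_thickening_subset_open hW hBW
  set η : ℝ := δ / (n + 1) with hη
  have hη0 : 0 < η := by positivity
  choose t ht using fun j : Fin n => exists_shift _ (hS j) η
  have hts : ∀ (j : Fin n) (s : E n), s ∈ S → ∀ k : ℤ, s j ≠ t j + k * η := fun j s hs k =>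
    ht j (s j) ⟨s, hs, rfl⟩ k
  obtain ⟨R, hR⟩ := hB.isBounded.subset_closedBall (0 : E n)
  obtain ⟨C, hC⟩ : ∃ C : ℤ, ∀ x ∈ B, ∀ j, |⌊(x j - t j) / η⌋| ≤ C := by
    have h1 : ∀ j : Fin n, ∃ C : ℕ, ∀ x ∈ B, |⌊(x j - t j) / η⌋| ≤ (C : ℤ) := by
      intro j
      obtain ⟨C, hC⟩ := exists_nat_ge ((R + |t j|) / η + 1)
      refine ⟨C, fun x hx => ?_⟩
      have h2 : |x j| ≤ R := by
        have h3 : ‖x‖ ≤ R := by simpa using hR hx
        have h4 : |x j| ≤ ‖x‖ := by
          have := EuclideanSpace.norm_sq_eq x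
          refine abs_le_of_sq_le_sq ?_ (norm_nonneg _)
          rw [this, ← sq_abs, ← Real.norm_eq_abs]
          exact Finset.single_le_sum (f := fun i => ‖x i‖ ^ 2) (fun i _ => by positivity)
            (Finset.mem_univ j)
        linarith
      have h5 : |(x j - t j) / η| ≤ (R + |t j|) / η := by
        rw [abs_div, abs_of_pos hη0]
        refine div_le_div_of_nonneg_right ?_ hη0.le
        exact (abs_sub _ _).trans (by linarith)
      have h6 := Int.floor_le ((x j - t j) / η)
      have h7 := Int.lt_floor_add_one ((x j - t j) / η)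
      have h8 := abs_le.1 h5
      have h9 : |((⌊(x j - t j) / η⌋ : ℤ) : ℝ)| ≤ (C : ℝ) := by
        rw [abs_le]
        constructor <;> linarith [h8.1, h8.2]
      have h10 : ((|⌊(x j - t j) / η⌋| : ℤ) : ℝ) ≤ ((C : ℤ) : ℝ) := by
        push_cast
        exact h9
      exact_mod_cast h10
    choose C hC using h1
    refine ⟨∑ j, (C j : ℤ), fun x hx j => (hC j x hx).trans ?_⟩
    exact Finset.single_le_sum (f := fun j => (C j : ℤ)) (fun i _ => by positivity)
      (Finset.mem_univ j)
  let lo : (Fin n → ℤ) → Fin n → ℝ := fun v k => t k + v k * η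
  let hi : (Fin n → ℤ) → Fin n → ℝ := fun v k => t k + (v k + 1) * η
  have hlh : ∀ v k, hi v k = lo v k + η := fun v k => by simp only [lo, hi]; ring
  let F : Finset (Fin n → ℤ) := (Fintype.piFinset fun _ => Finset.Icc (-C) C).filter
    fun v => (Bx (lo v) (hi v) ∩ B).Nonempty
  refine ⟨{v // v ∈ F}, inferInstance, fun v => lo v.1, fun v => hi v.1, fun v k => ?_, ?_, ?_,
    ?_, ?_⟩
  · show lo v.1 k < hi v.1 k
    rw [hlh]; linarith
  · intro x hx
    let v : Fin n → ℤ := fun j => ⌊(x j - t j) / η⌋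
    have hxv : x ∈ Bx (lo v) (hi v) := by
      intro k
      have h1 := Int.floor_le ((x k - t k) / η)
      have h2 := Int.lt_floor_add_one ((x k - t k) / η)
      rw [le_div_iff₀ hη0] at h1
      rw [div_lt_iff₀ hη0] at h2
      have h3 := hts k x (hBS hx) (v k)
      constructor
      · refine lt_of_le_of_ne ?_ (Ne.symm h3)
        show t k + (v k : ℝ) * η ≤ x k
        linarith
      · show x k < t k + ((v k : ℝ) + 1) * η
        linarith
    have hvF : v ∈ F := by
      rw [Finset.mem_filter, Fintype.mem_piFinset]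
      refine ⟨fun j => ?_, ⟨x, hxv, hx⟩⟩
      rw [Finset.mem_Icc]
      exact abs_le.1 (hC x hx j)
    exact mem_iUnion.2 ⟨⟨v, hvF⟩, hxv⟩
  · intro v w hvw
    rw [Set.disjoint_left]
    intro x hxv hxw
    apply hvw
    apply Subtype.ext
    funext k
    by_contra hne
    have h1 := hxv k
    have h2 := hxw k
    simp only [lo, hi] at h1 h2
    rcases lt_or_gt_of_ne hne with h | h
    · have h3 : ((v.1 k : ℤ) : ℝ) + 1 ≤ (w.1 k : ℤ) := by exact_mod_cast h
      nlinarith [h1.2, h2.1]
    · have h3 : ((w.1 k : ℤ) : ℝ) + 1 ≤ (v.1 k : ℤ) := by exact_mod_cast h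
      nlinarith [h1.1, h2.2]
  · intro v q hq
    obtain ⟨x, hxv, hxB⟩ := (Finset.mem_filter.1 v.2).2
    apply hδW
    rw [mem_thickening_iff]
    refine ⟨x, hxB, dist_lt_of_coord hδ fun k => ?_⟩
    have h1 := hq k
    have h2 := hxv k
    have h3 := hlh v.1 k
    rw [abs_le]
    constructor <;> linarith [h1.1, h1.2, h2.1, h2.2]
  · rintro v s ⟨hs, hsS⟩ k
    have h1 := hs k
    constructor
    · exact lt_of_le_of_ne h1.1 (Ne.symm (hts k s hsS (v.1 k)))
    · refine lt_of_le_of_ne h1.2 ?_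
      have h2 := hts k s hsS (v.1 k + 1)
      push_cast at h2
      exact h2

/-! ### the manifold case -/

theorem closedBox_compact (a b : Fin n → ℝ) : IsCompact {p : E n | ∀ k, a k ≤ p k ∧ p k ≤ b k} := by
  have hcl : IsClosed {p : E n | ∀ k, a k ≤ p k ∧ p k ≤ b k} := by
    have h : {p : E n | ∀ k, a k ≤ p k ∧ p k ≤ b k} = ⋂ k, {p : E n | a k ≤ p k ∧ p k ≤ b k} := by
      ext p; simp
    rw [h]
    refine isClosed_iInter fun k => ?_
    have h1 : Continuous fun p : E n => p k := by fun_prop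
    exact (isClosed_le continuous_const h1).inter (isClosed_le h1 continuous_const)
  refine (isCompact_Cu n (∑ k, (|a k| + |b k|))).of_isClosed_subset hcl ?_
  intro p hp k
  have h1 := hp k
  have h2 : |a k| + |b k| ≤ ∑ k, (|a k| + |b k|) :=
    Finset.single_le_sum (f := fun k => |a k| + |b k|) (fun i _ => by positivity)
      (Finset.mem_univ k)
  rw [abs_le]
  have h3 := neg_abs_le (a k)
  have h4 := le_abs_self (b k)
  have h5 := abs_nonneg (a k)
  have h6 := abs_nonneg (b k)
  constructor <;> linarith [h1.1, h1.2]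

/-- an open cell centered at a given point, in a given neighbourhood -/
theorem exists_cell {N : Type} [TopologicalSpace N] [ChartedSpace (E n) N]
    [IsManifold (𝓡 n) ∞ N] (y : N) (V : Set N) (hV : IsOpen V) (hy : y ∈ V) :
    ∃ c : E n → N, Injective c ∧ (∀ z, LD n c z) ∧ c 0 = y ∧ range c ⊆ V := by
  obtain ⟨c, hci, hcl, hc0⟩ := Pool.Agent.N550.TS.Flm.exists_cell0 (n := n) y
  have h1 : c ⁻¹' V ∈ 𝓝 (0 : E n) :=
    (hcl 0).continuousAt.preimage_mem_nhds (by rw [hc0]; exact hV.mem_nhds hy)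
  obtain ⟨ρ, hρ, hρV⟩ := Metric.mem_nhds_iff.1 h1
  refine ⟨fun z => c (End.jb ρ z), hci.comp (End.jb_inj ρ hρ), fun z =>
    LD.comp_fun (hcl _) (End.jb_LD ρ hρ z), ?_, ?_⟩
  · show c (End.jb ρ 0) = y
    rw [End.jb_zero, hc0]
  · rintro _ ⟨z, rfl⟩
    exact hρV (mem_ball_zero_iff.2 (End.jb_norm ρ hρ z))

/-- **Compact sets of length zero are covered by disjoint small open cells.** -/
theorem cells_cover {N : Type} [TopologicalSpace N] [T2Space N] [ChartedSpace (E n) N]
    [IsManifold (𝓡 n) ∞ N] (B : Set N) (hB : IsCompact B) (hBn : NullH n B) (V : N → Set N)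
    (hV : ∀ y, IsOpen (V y) ∧ y ∈ V y) :
    ∃ (ι : Type) (_ : Fintype ι) (c : ι → E n → N), (∀ i, Injective (c i)) ∧
      (∀ i z, LD n (c i) z) ∧ (∀ i j, i ≠ j → Disjoint (range (c i)) (range (c j))) ∧
      (B ⊆ ⋃ i, range (c i)) ∧ ∀ i, ∃ y, range (c i) ⊆ V y := by
  choose k hk1 hk2 hk3 hk4 using fun y => exists_cell (n := n) y (V y) (hV y).1 (hV y).2
  have hemb : ∀ {c : E n → N}, Injective c → (∀ z, LD n c z) → IsOpenEmbedding c := by
    intro c hci hcl
    exact IsOpenEmbedding.of_continuous_injective_isOpenMap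
      (continuous_iff_continuousAt.2 fun z => (hcl z).continuousAt) hci
      fun s hs => isOpen_image_of_LD (n := n) hs fun z _ => hcl z
  -- the statement for the induction
  have key : ∀ T : Finset N, ∃ (ι : Type) (_ : Fintype ι) (c : ι → E n → N),
      (∀ i, Injective (c i)) ∧ (∀ i z, LD n (c i) z) ∧
      (∀ i j, i ≠ j → Disjoint (range (c i)) (range (c j))) ∧
      (B ∩ (⋃ y ∈ T, k y '' closedBall 0 1) ⊆ ⋃ i, range (c i)) ∧
      (∀ i, ∃ y, range (c i) ⊆ V y) ∧ ∀ i, B ∩ closure (range (c i)) ⊆ range (c i) := by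
    classical
    intro T
    induction T using Finset.induction_on with
    | empty =>
      refine ⟨Empty, inferInstance, fun i => i.elim, fun i => i.elim, fun i => i.elim,
        fun i => i.elim, ?_, fun i => i.elim, fun i => i.elim⟩
      simp
    | insert y T _ ih =>
      obtain ⟨ι, hι, c, hc1, hc2, hc3, hc4, hc5, hc6⟩ := ih
      have hke := hemb (hk1 y) (hk2 y)
      have hO : IsOpen (⋃ i, range (c i)) :=
        isOpen_iUnion fun i => (hemb (hc1 i) (hc2 i)).isOpen_range
      set B' : Set (E n) := (k y ⁻¹' B ∩ closedBall 0 1) \ k y ⁻¹' (⋃ i, range (c i)) with hB'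
      have hB'c : IsCompact B' :=
        ((isCompact_closedBall 0 1).inter_left (hB.isClosed.preimage hke.continuous)).diff
          (hO.preimage hke.continuous)
      set W : Set (E n) := k y ⁻¹' (⋃ i, closure (range (c i)))ᶜ with hW
      have hWo : IsOpen W := by
        refine IsOpen.preimage hke.continuous ?_
        rw [isOpen_compl_iff]
        exact isClosed_iUnion_of_finite fun i => isClosed_closure
      obtain ⟨κ, hκ, a, b, hab, hcov, hdis, hsub, hbd⟩ := boxes (k y ⁻¹' B) B' W (fun j => by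
          have h1 := null_image (hBn (k y) (hk1 y) (hk2 y)) (fun p : E n => p j)
            fun x _ => (by fun_prop : ContDiff ℝ 1 fun p : E n => p j).contDiffAt
          rw [hausdorffMeasure_real] at h1
          exact h1) hB'c (fun x hx => hx.1.1) hWo (fun x hx => by
          intro hcon
          obtain ⟨i, hi⟩ := mem_iUnion.1 hcon
          exact hx.2 (mem_iUnion.2 ⟨i, hc6 i ⟨hx.1.1, hi⟩⟩))
      have hsmall : ∀ l : κ, range (fun z => k y (bd (a l) (b l) z)) = k y '' Bx (a l) (b l) := by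
        intro l
        ext x
        constructor
        · rintro ⟨z, rfl⟩
          exact ⟨_, bd_mem (hab l) z, rfl⟩
        · rintro ⟨p, hp, rfl⟩
          obtain ⟨z, hz⟩ := bd_surj p hp
          exact ⟨z, by simp only [hz]⟩
      have hcl : ∀ l : κ, closure (k y '' Bx (a l) (b l)) ⊆
          k y '' {p : E n | ∀ j, a l j ≤ p j ∧ p j ≤ b l j} := by
        intro l
        refine closure_minimal (image_mono fun p hp j => ⟨(hp j).1.le, (hp j).2.le⟩) ?_
        exact ((closedBox_compact _ _).image hke.continuous).isClosed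
      have hBxsub : ∀ l : κ, Bx (a l) (b l) ⊆ W := fun l p hp =>
        hsub l fun j => ⟨(hp j).1.le, (hp j).2.le⟩
      refine ⟨ι ⊕ κ, inferInstance,
        Sum.elim c (fun l z => k y (bd (a l) (b l) z)), ?_, ?_, ?_, ?_, ?_, ?_⟩
      · rintro (i | l)
        · exact hc1 i
        · exact (hk1 y).comp (bd_inj (hab l))
      · rintro (i | l) z
        · exact hc2 i z
        · exact LD.comp_fun (g := k y) (f := bd (a l) (b l)) (hk2 y _) (bd_LD (hab l) z)
      · rintro (i | l) (j | l') hne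
        · exact hc3 i j fun h => hne (by rw [h])
        · simp only [Sum.elim_inl, Sum.elim_inr]
          rw [hsmall, Set.disjoint_right]
          rintro _ ⟨p, hp, rfl⟩ hcon
          exact hBxsub l' hp (mem_iUnion.2 ⟨i, subset_closure hcon⟩)
        · simp only [Sum.elim_inl, Sum.elim_inr]
          rw [hsmall, Set.disjoint_left]
          rintro _ ⟨p, hp, rfl⟩ hcon
          exact hBxsub l hp (mem_iUnion.2 ⟨j, subset_closure hcon⟩)
        · simp only [Sum.elim_inr]
          rw [hsmall, hsmall, Set.disjoint_left]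
          rintro _ ⟨p, hp, rfl⟩ ⟨q, hq, hqp⟩
          have h1 := hk1 y hqp
          rw [h1] at hq
          exact Set.disjoint_left.1 (hdis l l' fun h => hne (by rw [h])) hp hq
      · rintro x ⟨hxB, hx⟩
        rw [Finset.set_biUnion_insert] at hx
        by_cases hxc : x ∈ ⋃ i, range (c i)
        · obtain ⟨i, hi⟩ := mem_iUnion.1 hxc
          exact mem_iUnion.2 ⟨Sum.inl i, hi⟩
        · rcases hx with ⟨p, hp, rfl⟩ | hx
          · obtain ⟨l, hl⟩ := mem_iUnion.1 (hcov (show p ∈ B' from ⟨⟨hxB, hp⟩, hxc⟩))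
            refine mem_iUnion.2 ⟨Sum.inr l, ?_⟩
            simp only [Sum.elim_inr]
            rw [hsmall]
            exact ⟨p, hl, rfl⟩
          · exact absurd (hc4 ⟨hxB, hx⟩) hxc
      · rintro (i | l)
        · exact hc5 i
        · refine ⟨y, ?_⟩
          rintro _ ⟨z, rfl⟩
          exact hk4 y (mem_range_self _)
      · rintro (i | l)
        · exact hc6 i
        · simp only [Sum.elim_inr]
          rw [hsmall]
          rintro x ⟨hxB, hx⟩
          obtain ⟨p, hp, rfl⟩ := hcl l hx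
          exact ⟨p, hbd l ⟨hp, hxB⟩, rfl⟩
  -- compactness
  obtain ⟨T, hT⟩ := hB.elim_finite_subcover (fun y : N => k y '' ball 0 1)
    (fun y => (hemb (hk1 y) (hk2 y)).isOpenMap _ isOpen_ball)
    (fun y _ => mem_iUnion.2 ⟨y, 0, mem_ball_self one_pos, hk3 y⟩)
  obtain ⟨ι, hι, c, hc1, hc2, hc3, hc4, hc5, -⟩ := key T
  refine ⟨ι, hι, c, hc1, hc2, hc3, fun x hx => hc4 ⟨hx, ?_⟩, hc5⟩
  obtain ⟨y, hyT, hy⟩ := mem_iUnion₂.1 (hT hx)
  exact mem_iUnion₂.2 ⟨y, hyT, image_mono ball_subset_closedBall hy⟩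

end Pool.Agent.U898.CM.Grid
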