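import Pool.Agent.U898.CM.End

/-!
# Modification of a collapsing map over an open cell
-/

set_option autoImplicit false

open Set Filter Topology Metric Function MeasureTheory
open scoped Manifold ContDiff ENNReal NNReal

noncomputable section

namespace Pool.Agent.U898.CM.Mods

open Pool.Agent.Y522 Pool.Agent.N550.KH

variable {m : ℕ} {M N : Type} [TopologicalSpace M] [ChartedSpace (E (m + 1)) M]
  [TopologicalSpace N] [ChartedSpace (E (m + 1)) N]

/-- proper surjections which are injective and smooth off the preimage of `B`, whose fibres over `B`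
have neighbourhoods which embed in the Euclidean space -/
structure Cls (m : ℕ) {M N : Type} [TopologicalSpace M] [ChartedSpace (E (m + 1)) M]
    [TopologicalSpace N] [ChartedSpace (E (m + 1)) N] (f : M → N) (B : Set N) : Prop where
  cont : Continuous f
  surj : Surjective f
  proper : ∀ K : Set N, IsCompact K → IsCompact (f ⁻¹' K)
  good : ∀ x, f x ∉ B → ContMDiffAt (𝓡 (m + 1)) (𝓡 (m + 1)) ∞ f x ∧ ∀ y, f y = f x → y = x
  fib : ∀ y ∈ B, Emb (m + 1) (f ⁻¹' {y})

theorem cell_isOpenEmbedding {c : E (m + 1) → N} (hci : Injective c)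
    (hcl : ∀ z, LD (m + 1) c z) : IsOpenEmbedding c :=
  IsOpenEmbedding.of_continuous_injective_isOpenMap
    (continuous_iff_continuousAt.2 fun z => (hcl z).continuousAt) hci
    fun s hs => isOpen_image_of_LD (n := m + 1) hs fun z _ => hcl z

/-- **The preimage of an open cell is an open cell.** -/
theorem Cls.cell [T2Space M] [IsManifold (𝓡 (m + 1)) ∞ M] [T2Space N] {f : M → N} {B : Set N}
    (hf : Cls m f B) (hB : IsClosed B) (hBn : NullH (m + 1) B) (c : E (m + 1) → N)
    (hci : Injective c) (hcl : ∀ z, LD (m + 1) c z) :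
    ∃ c' : E (m + 1) → M, Injective c' ∧ (∀ z, LD (m + 1) c' z) ∧ range c' = f ⁻¹' range c := by
  have hemb := cell_isOpenEmbedding hci hcl
  let U : TopologicalSpace.Opens M := ⟨f ⁻¹' range c, hemb.isOpen_range.preimage hf.cont⟩
  have hU : ∀ x : U, f x ∈ range c := fun x => x.2
  have hs : ∀ z, invFun c (c z) = z := leftInverse_invFun hci
  have hcild : ∀ z, LD (m + 1) (invFun c) (c z) := fun z =>
    LD.inverse (n := m + 1) isOpen_univ (fun x _ => hcl x) (fun x _ => hs x) (mem_univ z)
  let H : U → E (m + 1) := fun u => invFun c (f u)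
  have hcH : ∀ u : U, c (H u) = f u := by
    intro u
    obtain ⟨z, hz⟩ := hU u
    show c (invFun c (f u)) = f u
    rw [← hz, hs]
  have hHc : Continuous H := by
    rw [hemb.isInducing.continuous_iff]
    have : c ∘ H = fun u : U => f u := funext hcH
    rw [this]
    exact hf.cont.comp continuous_subtype_val
  have hHs : Surjective H := by
    intro z
    obtain ⟨x, hx⟩ := hf.surj (c z)
    refine ⟨⟨x, ⟨z, hx.symm⟩⟩, hci ?_⟩
    rw [hcH]
    exact hx
  have hHp : ∀ K : Set (E (m + 1)), IsCompact K → IsCompact (H ⁻¹' K) := by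
    intro K hK
    have h1 : H ⁻¹' K = (Subtype.val : U → M) ⁻¹' (f ⁻¹' (c '' K)) := by
      ext u
      constructor
      · intro hu
        exact ⟨H u, hu, hcH u⟩
      · rintro ⟨z, hz, hzu⟩
        rw [← hcH] at hzu
        have := hci hzu
        rw [mem_preimage, ← this]
        exact hz
    rw [h1]
    refine IsInducing.subtypeVal.isCompact_preimage' (hf.proper _ (hK.image hemb.continuous)) ?_
    rw [Subtype.range_coe]
    exact preimage_mono (image_subset_range _ _)
  have hgood : ∀ p, c p ∉ B → GoodVal (n := m + 1) H p := by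
    intro p hp
    obtain ⟨u, hu⟩ := hHs p
    have hfu : f u = c p := by rw [← hcH, hu]
    refine ⟨u, ?_, ?_⟩
    · ext v
      constructor
      · intro hv
        have h2 : f v = f u := by rw [← hcH, ← hcH, hu]; exact congrArg c hv
        exact Subtype.ext ((hf.good u (by rw [hfu]; exact hp)).2 _ h2)
      · intro hv
        rw [mem_singleton_iff] at hv
        rw [hv]
        exact hu
    · have h3 : ∀ᶠ v : U in 𝓝 u, f v ∉ B := by
        have h4 : Continuous fun v : U => f v := hf.cont.comp continuous_subtype_val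
        exact h4.continuousAt.eventually (hB.isOpen_compl.mem_nhds (by
          show f u ∈ Bᶜ
          rw [hfu]; exact hp))
      filter_upwards [h3] with v hv
      have h2 : ContMDiffAt (𝓡 (m + 1)) (𝓡 (m + 1)) ∞ (fun x : U => f x) v :=
        ContMDiffAt.comp (g := f) (f := (Subtype.val : U → M)) v (hf.good v hv).1
          (Pool.Agent.N550.SH.ld_opens U v).contMDiffAt
      have h3 : ContMDiffAt (𝓡 (m + 1)) (𝓡 (m + 1)) ∞ (invFun c) (f v) := by
        rw [← hcH]; exact (hcild _).contMDiffAt
      exact ContMDiffAt.comp (g := invFun c) (f := fun x : U => f x) v h3 h2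
  have hnull : Measure.hausdorffMeasure 1 {p | ¬ GoodVal (n := m + 1) H p} = 0 := by
    refine measure_mono_null ?_ (hBn c hci hcl)
    intro p hp
    by_contra hcon
    exact hp (hgood p hcon)
  have hF : ∀ p, ¬ GoodVal (n := m + 1) H p → Emb (m + 1) (H ⁻¹' {p}) := by
    intro p hp
    have hpB : c p ∈ B := by
      by_contra hcon
      exact hp (hgood p hcon)
    obtain ⟨V, i, hV, hFV, hi, hil⟩ := hf.fib (c p) hpB
    refine ⟨(Subtype.val : U → M) ⁻¹' V, fun u => i u, hV.preimage continuous_subtype_val,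
      ?_, ?_, ?_⟩
    · intro u hu
      refine hFV ?_
      have h3 : H u = p := hu
      show f u ∈ ({c p} : Set N)
      rw [mem_singleton_iff, ← hcH, h3]
    · intro u hu v hv huv
      exact Subtype.ext (hi hu hv huv)
    · intro u hu
      exact LD.comp_fun (g := i) (f := (Subtype.val : U → M)) (hil _ hu)
        (Pool.Agent.N550.SH.ld_opens U u)
  obtain ⟨Φ⟩ := recognition (m := m) hHc hHs hHp hnull hF
  refine ⟨fun z => (Φ.symm z : M), Subtype.val_injective.comp Φ.symm.injective, fun z => ?_, ?_⟩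
  · exact LD.comp_fun (g := (Subtype.val : U → M)) (Pool.Agent.N550.SH.ld_opens U (Φ.symm z))
      (Φ.symm.isLocalDiffeomorph z)
  · ext x
    constructor
    · rintro ⟨z, rfl⟩
      exact hU (Φ.symm z)
    · intro hx
      exact ⟨Φ ⟨x, hx⟩, by simp⟩

/-- the map in the cells is smooth and injective near infinity -/
theorem Cls.model [T2Space M] [IsManifold (𝓡 (m + 1)) ∞ M] [T2Space N] {f : M → N} {B : Set N}
    (hf : Cls m f B) (c : E (m + 1) → N) (hci : Injective c)
    (hcl : ∀ z, LD (m + 1) c z) (hBc : IsCompact (B ∩ range c)) (c' : E (m + 1) → M)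
    (hci' : Injective c') (hcl' : ∀ z, LD (m + 1) c' z) (hr : range c' = f ⁻¹' range c) :
    ∃ e : E (m + 1) → E (m + 1), (∀ z, c (e z) = f (c' z)) ∧
      ∃ G : E (m + 1) ≃ₜ E (m + 1), ContDiff ℝ ∞ G ∧ ∃ A : ℝ, ∀ z, A < ‖z‖ → G z = e z := by
  have hemb := cell_isOpenEmbedding hci hcl
  have hemb' := cell_isOpenEmbedding hci' hcl'
  have hs : ∀ z, invFun c (c z) = z := leftInverse_invFun hci
  have hcild : ∀ z, LD (m + 1) (invFun c) (c z) := fun z =>
    LD.inverse (n := m + 1) isOpen_univ (fun x _ => hcl x) (fun x _ => hs x) (mem_univ z)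
  let e : E (m + 1) → E (m + 1) := fun z => invFun c (f (c' z))
  have hce : ∀ z, c (e z) = f (c' z) := by
    intro z
    have h1 : c' z ∈ f ⁻¹' range c := hr ▸ mem_range_self z
    obtain ⟨w, hw⟩ := h1
    show c (invFun c (f (c' z))) = f (c' z)
    rw [← hw, hs]
  have hec : Continuous e := by
    rw [hemb.isInducing.continuous_iff]
    have : c ∘ e = f ∘ c' := funext hce
    rw [this]
    exact hf.cont.comp hemb'.continuous
  have hes : Surjective e := by
    intro w
    obtain ⟨x, hx⟩ := hf.surj (c w)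
    have h1 : x ∈ range c' := by
      rw [hr]; exact ⟨w, hx.symm⟩
    obtain ⟨z, rfl⟩ := h1
    exact ⟨z, hci (by rw [hce, hx])⟩
  have hep : ∀ K : Set (E (m + 1)), IsCompact K → IsCompact (e ⁻¹' K) := by
    intro K hK
    have h1 : e ⁻¹' K = c' ⁻¹' (f ⁻¹' (c '' K)) := by
      ext u
      constructor
      · intro hu
        exact ⟨e u, hu, hce u⟩
      · rintro ⟨z, hz, hzu⟩
        rw [← hce] at hzu
        have := hci hzu
        rw [mem_preimage, ← this]
        exact hz
    rw [h1]
    refine hemb'.isInducing.isCompact_preimage' (hf.proper _ (hK.image hemb.continuous)) ?_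
    rw [hr]
    exact preimage_mono (image_subset_range _ _)
  -- the compact set
  have hPc : IsCompact (c' ⁻¹' (f ⁻¹' (B ∩ range c))) := by
    refine hemb'.isInducing.isCompact_preimage' (hf.proper _ hBc) ?_
    rw [hr]
    exact preimage_mono inter_subset_right
  obtain ⟨R, hR⟩ := hPc.isBounded.subset_closedBall (0 : E (m + 1))
  have hout : ∀ z, R < ‖z‖ → f (c' z) ∉ B := by
    intro z hz hcon
    have h1 : z ∈ closedBall (0 : E (m + 1)) R := hR ⟨hcon, ⟨e z, hce z⟩⟩
    rw [mem_closedBall_zero_iff] at h1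
    linarith
  refine ⟨e, hce, Ends.extend_end e R (Nat.succ_pos m) hec hes hep fun z hz => ⟨?_, ?_⟩⟩
  · have h2 : ContMDiffAt (𝓡 (m + 1)) (𝓡 (m + 1)) ∞ (fun z => f (c' z)) z :=
      ContMDiffAt.comp (g := f) (f := c') z (hf.good _ (hout z hz)).1 (hcl' z).contMDiffAt
    have h3 : ContMDiffAt (𝓡 (m + 1)) (𝓡 (m + 1)) ∞ (invFun c) (f (c' z)) := by
      rw [← hce]; exact (hcild _).contMDiffAt
    exact contMDiffAt_iff_contDiffAt.1
      (ContMDiffAt.comp (g := invFun c) (f := fun z => f (c' z)) z h3 h2)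
  · intro w hw
    exact hci' ((hf.good _ (hout z hz)).2 _ (by rw [← hce, ← hce, hw]))

/-- **Modification over an open cell.** -/
theorem Cls.modify [T2Space M] [IsManifold (𝓡 (m + 1)) ∞ M] [T2Space N] {f : M → N} {B : Set N}
    (hf : Cls m f B) (hB : IsClosed B) (hBn : NullH (m + 1) B) (c : E (m + 1) → N)
    (hci : Injective c) (hcl : ∀ z, LD (m + 1) c z) (hBc : IsCompact (B ∩ range c)) :
    ∃ g : M → N, Cls m g (B \ range c) ∧ (∀ x, f x ∉ range c → g x = f x) ∧
      ∀ x, f x ∈ range c → g x ∈ range c := by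
  classical
  obtain ⟨c', hci', hcl', hr⟩ := hf.cell hB hBn c hci hcl
  obtain ⟨e, hce, G, hG, A, hGA⟩ := hf.model c hci hcl hBc c' hci' hcl' hr
  have hemb := cell_isOpenEmbedding hci hcl
  have hemb' := cell_isOpenEmbedding hci' hcl'
  have hs' : ∀ z, invFun c' (c' z) = z := leftInverse_invFun hci'
  have hcild' : ∀ z, LD (m + 1) (invFun c') (c' z) := fun z =>
    LD.inverse (n := m + 1) isOpen_univ (fun x _ => hcl' x) (fun x _ => hs' x) (mem_univ z)
  set g : M → N := fun x => if x ∈ range c' then c (G (invFun c' x)) else f x with hg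
  have hg1 : ∀ z, g (c' z) = c (G z) := fun z => by
    simp only [hg, mem_range_self, if_true, hs']
  have hg2 : ∀ x, x ∉ range c' → g x = f x := fun x hx => by
    simp only [hg]
    rw [if_neg hx]
  have hg3 : ∀ x, x ∉ c' '' closedBall 0 A → g x = f x := by
    intro x hx
    by_cases h : x ∈ range c'
    · obtain ⟨z, rfl⟩ := h
      have h1 : A < ‖z‖ := by
        by_contra hcon
        push Not at hcon
        exact hx ⟨z, mem_closedBall_zero_iff.2 hcon, rfl⟩
      rw [hg1, hGA z h1, hce]
    · exact hg2 x h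
  have hmem : ∀ x, x ∈ range c' ↔ f x ∈ range c := fun x => by rw [hr]; rfl
  have hgm : ∀ x, g x ∈ range c ↔ x ∈ range c' := by
    intro x
    constructor
    · intro h
      by_contra hx
      rw [hg2 x hx, ← hmem] at h
      exact hx h
    · rintro ⟨z, rfl⟩
      exact ⟨G z, (hg1 z).symm⟩
  have hcb : IsCompact (c' '' closedBall 0 A) := (isCompact_closedBall 0 A).image hemb'.continuous
  have hev : ∀ x, x ∉ range c' → g =ᶠ[𝓝 x] f := by
    intro x hx
    have h1 : (c' '' closedBall 0 A)ᶜ ∈ 𝓝 x := by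
      refine IsOpen.mem_nhds hcb.isClosed.isOpen_compl ?_
      rintro ⟨z, -, hz⟩
      exact hx ⟨z, hz⟩
    filter_upwards [h1] with y hy
    exact hg3 y hy
  have hev' : ∀ z, g =ᶠ[𝓝 (c' z)] fun x => c (G (invFun c' x)) := by
    intro z
    filter_upwards [hemb'.isOpen_range.mem_nhds (mem_range_self z)] with y hy
    obtain ⟨w, rfl⟩ := hy
    rw [hg1, hs']
  have hsm : ∀ z, ContMDiffAt (𝓡 (m + 1)) (𝓡 (m + 1)) ∞ g (c' z) := by
    intro z
    have h1 : ContMDiffAt (𝓡 (m + 1)) (𝓡 (m + 1)) ∞ (invFun c') (c' z) := (hcild' z).contMDiffAt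
    have h2 : ContMDiffAt (𝓡 (m + 1)) (𝓡 (m + 1)) ∞ (fun y => G (invFun c' y)) (c' z) :=
      ContMDiffAt.comp (g := G) (f := invFun c') (c' z) hG.contMDiff.contMDiffAt h1
    have h3 : ContMDiffAt (𝓡 (m + 1)) (𝓡 (m + 1)) ∞ (fun y => c (G (invFun c' y))) (c' z) :=
      ContMDiffAt.comp (g := c) (f := fun y => G (invFun c' y)) (c' z) (hcl _).contMDiffAt h2
    exact h3.congr_of_eventuallyEq (hev' z)
  have hgc : Continuous g := by
    rw [continuous_iff_continuousAt]
    intro x
    by_cases h : x ∈ range c'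
    · obtain ⟨z, rfl⟩ := h
      exact (hsm z).continuousAt
    · exact hf.cont.continuousAt.congr (hev x h).symm
  refine ⟨g, ⟨hgc, ?_, ?_, ?_, ?_⟩, fun x hx => hg2 x fun h => hx ((hmem x).1 h),
    fun x hx => (hgm x).2 ((hmem x).2 hx)⟩
  · intro y
    by_cases hy : y ∈ range c
    · obtain ⟨w, rfl⟩ := hy
      exact ⟨c' (G.symm w), by rw [hg1, G.apply_symm_apply]⟩
    · obtain ⟨x, rfl⟩ := hf.surj y
      exact ⟨x, hg2 x fun hx => hy ((hmem x).1 hx)⟩
  · intro K hK
    refine ((hf.proper K hK).union hcb).of_isClosed_subset (hK.isClosed.preimage hgc) ?_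
    intro x hx
    by_cases h : x ∈ c' '' closedBall 0 A
    · exact Or.inr h
    · left
      rw [mem_preimage, ← hg3 x h]
      exact hx
  · intro x hx
    by_cases h : x ∈ range c'
    · obtain ⟨z, rfl⟩ := h
      refine ⟨hsm z, fun y hy => ?_⟩
      have h1 : y ∈ range c' := by
        rw [← hgm, hy, hgm]
        exact mem_range_self z
      obtain ⟨w, rfl⟩ := h1
      rw [hg1, hg1] at hy
      rw [G.injective (hci hy)]
    · have h1 : f x ∉ B := by
        intro hcon
        refine hx ⟨by rw [hg2 x h]; exact hcon, fun h2 => h ((hgm x).1 h2)⟩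
      obtain ⟨h2, h3⟩ := hf.good x h1
      refine ⟨h2.congr_of_eventuallyEq (hev x h), fun y hy => ?_⟩
      have h4 : y ∉ range c' := by
        rw [← hgm, hy, hgm]
        exact h
      rw [hg2 y h4, hg2 x h] at hy
      exact h3 y hy
  · rintro y ⟨hy, hyc⟩
    have h1 : g ⁻¹' {y} = f ⁻¹' {y} := by
      ext x
      by_cases h : x ∈ range c'
      · constructor
        · intro hx
          exact absurd ((hgm x).2 h) (by rw [show g x = y from hx]; exact hyc)
        · intro hx
          exact absurd ((hmem x).1 h) (by rw [show f x = y from hx]; exact hyc)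
      · rw [mem_preimage, mem_preimage, hg2 x h]
    rw [h1]
    exact hf.fib y hy

end Pool.Agent.U898.CM.Mods
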